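import Mathlib
import Pool.Agent.P.MP_f4e0a3_ag.Main

/-!
Sums of representations, coefficients in the extra variables, and the boundedness condition.
-/

open MvPolynomial Matrix

set_option linter.unusedSectionVars false

namespace Pool.Agent.P.MP_f4e0a3_ag

section Sum

variable {τ σ ι₁ ι₀ : Type} [Fintype σ] [DecidableEq σ] [Fintype ι₁] [DecidableEq ι₁]
  [Fintype ι₀] [DecidableEq ι₀]

/-- the sum of two representations -/
def Rep.sum (r₁ : Rep τ σ ι₁) (r₀ : Rep τ σ ι₀) : Rep τ σ (ι₁ ⊕ ι₀) where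
  ρ R _ _ :=
    { toFun := fun γ => fromBlocks (r₁.ρ R γ) 0 0 (r₀.ρ R γ)
      map_one' := by simp
      map_mul' := fun γ δ => by simp [fromBlocks_multiply] }
  nat φ γ := by
    simp only [MonoidHom.coe_mk, OneHom.coe_mk, fromBlocks_map, r₁.nat, r₀.nat]
    rw [Matrix.map_zero _ (map_zero φ), Matrix.map_zero _ (map_zero φ)]

variable {R S : Type} [CommRing R] [Algebra ℂ R] [CommRing S] [Algebra ℂ S]

lemma Rep.pt_sum (r₁ : Rep τ σ ι₁) (r₀ : Rep τ σ ι₀) (m : ι₁ → R) (z : ι₀ → R) (γ : Gr τ σ R) :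
    (r₁.sum r₀).pt (Sum.elim m z) γ = Sum.elim (r₁.pt m γ) (r₀.pt z γ) := by
  show _ ᵥ* fromBlocks _ _ _ _ = _
  rw [vecMul_fromBlocks]
  simp [Rep.pt]

lemma Rep.pt_zero (r : Rep τ σ ι₁) (γ : Gr τ σ R) : r.pt 0 γ = 0 := by simp [Rep.pt]

lemma exists_elim (w : ι₁ ⊕ ι₀ → R) : ∃ m z, w = Sum.elim m z :=
  ⟨_, _, (Sum.elim_comp_inl_inr w).symm⟩

/-- substitution of a point for the second group of variables -/
noncomputable def sl (z : ι₀ → R) : MvPolynomial (ι₁ ⊕ ι₀) ℂ →ₐ[ℂ] MvPolynomial ι₁ R :=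
  aeval (Sum.elim X fun o => C (z o))

/-- coefficients in the first group of variables -/
noncomputable def co (μ : ι₁ →₀ ℕ) (F : MvPolynomial (ι₁ ⊕ ι₀) ℂ) : MvPolynomial ι₀ ℂ :=
  coeff μ (sl (X : ι₀ → MvPolynomial ι₀ ℂ) F)

/-- the support in the first group of variables -/
noncomputable def sp (F : MvPolynomial (ι₁ ⊕ ι₀) ℂ) : Finset (ι₁ →₀ ℕ) :=
  (sl (X : ι₀ → MvPolynomial ι₀ ℂ) F).support

/-- monomials in the first group of variables -/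
noncomputable def xm (μ : ι₁ →₀ ℕ) : MvPolynomial (ι₁ ⊕ ι₀) ℂ := ∏ j, X (Sum.inl j) ^ μ j

lemma map_sl (φ : R →ₐ[ℂ] S) (z : ι₀ → R) (F : MvPolynomial (ι₁ ⊕ ι₀) ℂ) :
    MvPolynomial.map (φ : R →+* S) (sl z F) = sl (fun o => φ (z o)) F := by
  have : (mapAlgHom (σ := ι₁) φ).comp (sl z) = sl fun o => φ (z o) := by
    ext1 i
    cases i <;> simp [sl]
  exact DFunLike.congr_fun this F

lemma coeff_sl (z : ι₀ → R) (μ : ι₁ →₀ ℕ) (F : MvPolynomial (ι₁ ⊕ ι₀) ℂ) :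
    coeff μ (sl z F) = aeval z (co μ F) := by
  have := map_sl (aeval z : MvPolynomial ι₀ ℂ →ₐ[ℂ] R) X F
  simp only [aeval_X] at this
  rw [← this, coeff_map]; rfl

lemma eval_sl (m : ι₁ → R) (z : ι₀ → R) (F : MvPolynomial (ι₁ ⊕ ι₀) ℂ) :
    eval m (sl z F) = aeval (Sum.elim m z) F := by
  have : ((aeval m : MvPolynomial ι₁ R →ₐ[R] R).restrictScalars ℂ).comp (sl z) =
      aeval (Sum.elim m z) := by
    ext1 i
    cases i <;> simp [sl]
  exact DFunLike.congr_fun this F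

lemma sl_rename (z : ι₀ → R) (P : MvPolynomial ι₀ ℂ) :
    sl (ι₁ := ι₁) z (rename Sum.inr P) = C (aeval z P) := by
  have : (sl (ι₁ := ι₁) z).comp (rename Sum.inr) =
      (IsScalarTower.toAlgHom ℂ R (MvPolynomial ι₁ R)).comp (aeval z) := by
    ext1 i
    simp [sl]
  exact DFunLike.congr_fun this P

lemma aeval_elim (m : ι₁ → R) (z : ι₀ → R) (F : MvPolynomial (ι₁ ⊕ ι₀) ℂ) :
    aeval (Sum.elim m z) F = ∑ μ ∈ sp F, aeval z (co μ F) * ∏ j, m j ^ μ j := by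
  have := map_sl (aeval z : MvPolynomial ι₀ ℂ →ₐ[ℂ] R) X F
  simp only [aeval_X] at this
  rw [← eval_sl, ← this, eval_map, eval₂_eq']
  rfl

lemma eq_sum_co (F : MvPolynomial (ι₁ ⊕ ι₀) ℂ) :
    F = ∑ μ ∈ sp F, rename Sum.inr (co μ F) * xm μ := by
  have h := aeval_elim (R := MvPolynomial (ι₁ ⊕ ι₀) ℂ) (fun j => X (Sum.inl j))
    (fun o => X (Sum.inr o)) F
  rw [show Sum.elim (fun j => X (Sum.inl j)) (fun o => X (Sum.inr o)) =
    (X : ι₁ ⊕ ι₀ → MvPolynomial (ι₁ ⊕ ι₀) ℂ) from funext fun i => by cases i <;> rfl,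
    aeval_X_left_apply] at h
  refine h.trans (Finset.sum_congr rfl fun μ _ => ?_)
  rw [rename_eq_aeval]; rfl

lemma co_sub (μ : ι₁ →₀ ℕ) (F G : MvPolynomial (ι₁ ⊕ ι₀) ℂ) : co μ (F - G) = co μ F - co μ G := by
  simp [co]

lemma co_add (μ : ι₁ →₀ ℕ) (F G : MvPolynomial (ι₁ ⊕ ι₀) ℂ) : co μ (F + G) = co μ F + co μ G := by
  simp [co]

lemma Rep.gact_rename (r₁ : Rep τ σ ι₁) (r₀ : Rep τ σ ι₀) (γ : Gr τ σ ℂ) (P : MvPolynomial ι₀ ℂ) :
    (r₁.sum r₀).gact γ (rename Sum.inr P) = rename Sum.inr (r₀.gact γ P) := by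
  apply MvPolynomial.funext
  intro w
  obtain ⟨m, z, rfl⟩ := exists_elim w
  have h1 := (r₁.sum r₀).aeval_act γ (Sum.elim m z) (rename Sum.inr P)
  rw [Rep.pt_sum, aeval_rename, Sum.elim_comp_inr, ← r₀.aeval_act] at h1
  rw [eval_rename]
  exact h1

/-- the filtration attached to an ideal of the coefficient ring -/
def fil {A : Type} [CommRing A] (I : Ideal A) (n : ℕ) : Ideal (MvPolynomial ι₁ A) where
  carrier := {P | ∀ μ, coeff μ P ∈ I ^ (n - μ.degree)}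
  add_mem' ha hb μ := by rw [coeff_add]; exact add_mem (ha μ) (hb μ)
  zero_mem' μ := by simp
  smul_mem' a P hP μ := by
    rw [smul_eq_mul, coeff_mul]
    refine Ideal.sum_mem _ fun x hx => Ideal.mul_mem_left _ _ (Ideal.pow_le_pow_right ?_ (hP x.2))
    rw [← Finset.HasAntidiagonal.mem_antidiagonal.1 hx, map_add]
    omega

lemma pow_le_fil {A : Type} [CommRing A] (I : Ideal A) (n : ℕ) :
    fil (ι₁ := ι₁) I 1 ^ n ≤ fil I n := by
  induction n with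
  | zero => intro P _ μ; simp
  | succ n ih =>
    rw [pow_succ]
    refine Ideal.mul_le.2 fun a ha b hb μ => ?_
    rw [coeff_mul]
    refine Ideal.sum_mem _ fun x hx => ?_
    have h := Ideal.mul_mem_mul (ih ha x.1) (hb x.2)
    rw [← pow_add] at h
    refine Ideal.pow_le_pow_right ?_ h
    rw [← Finset.HasAntidiagonal.mem_antidiagonal.1 hx, map_add]
    omega

lemma mem_fil_one {A : Type} [CommRing A] {I : Ideal A} {P : MvPolynomial ι₁ A}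
    (h : coeff 0 P ∈ I) : P ∈ fil I 1 := fun μ => by
  by_cases h0 : μ = 0
  · simpa [h0] using h
  · have : μ.degree ≠ 0 := fun h1 => h0 ((Finsupp.degree_eq_zero_iff μ).1 h1)
    rw [show 1 - μ.degree = 0 by omega]
    simp

lemma aeval_co_zero (z : ι₀ → R) (F : MvPolynomial (ι₁ ⊕ ι₀) ℂ) :
    aeval z (co 0 F) = aeval (Sum.elim 0 z) F := by
  rw [← coeff_sl, ← eval_sl, eval_zero, constantCoeff_eq]

/-- coefficients of an element of a power of an ideal -/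
lemma co_mem_pow {J : Ideal (MvPolynomial (ι₁ ⊕ ι₀) ℂ)} {I : Ideal (MvPolynomial ι₀ ℂ)}
    (h : ∀ F ∈ J, co 0 F ∈ I) {n : ℕ} {F : MvPolynomial (ι₁ ⊕ ι₀) ℂ} (hF : F ∈ J ^ n)
    (μ : ι₁ →₀ ℕ) : co μ F ∈ I ^ (n - μ.degree) := by
  have h1 := Ideal.mem_map_of_mem (sl (X : ι₀ → MvPolynomial ι₀ ℂ)) hF
  rw [Ideal.map_pow] at h1
  have h2 : J.map (sl (X : ι₀ → MvPolynomial ι₀ ℂ)) ≤ fil I 1 :=
    Ideal.map_le_iff_le_comap.2 fun G hG => mem_fil_one (P := sl X G) (h G hG)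
  exact pow_le_fil I n (Ideal.pow_right_mono h2 n h1) μ

lemma xm_mem_pow {J : Ideal (MvPolynomial (ι₁ ⊕ ι₀) ℂ)} (h : ∀ j, X (Sum.inl j) ∈ J)
    (μ : ι₁ →₀ ℕ) : xm μ ∈ J ^ μ.degree := by
  rw [Finsupp.degree_eq_sum, ← Finset.prod_pow_eq_pow_sum]
  exact Ideal.prod_mem_prod fun j _ => Ideal.pow_mem_pow (h j) _

lemma rename_mem_pow {J : Ideal (MvPolynomial (ι₁ ⊕ ι₀) ℂ)} {I : Ideal (MvPolynomial ι₀ ℂ)}
    (h : ∀ P ∈ I, rename Sum.inr P ∈ J) {n : ℕ} {P : MvPolynomial ι₀ ℂ} (hP : P ∈ I ^ n) :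
    rename Sum.inr P ∈ J ^ n := by
  have h1 := Ideal.mem_map_of_mem (rename (Sum.inr : ι₀ → ι₁ ⊕ ι₀)) hP
  rw [Ideal.map_pow] at h1
  exact Ideal.pow_right_mono (Ideal.map_le_iff_le_comap.2 h) n h1

lemma rename_mem_mI {h : ι₀ → ℂ} {P : MvPolynomial ι₀ ℂ} (hP : P ∈ mI h) :
    rename Sum.inr P ∈ mI (Sum.elim (0 : ι₁ → ℂ) h) := by
  rw [mem_mI, aeval_rename]; exact hP

variable [Fintype τ]

lemma Rep.rename_mem_orbI (r₁ : Rep τ σ ι₁) (r₀ : Rep τ σ ι₀) {h : ι₀ → ℂ} {P : MvPolynomial ι₀ ℂ}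
    (hP : P ∈ r₀.orbI h) : rename Sum.inr P ∈ (r₁.sum r₀).orbI (Sum.elim 0 h) := by
  rw [Rep.mem_orbI] at hP ⊢
  intro γ
  rw [Rep.pt_sum, aeval_rename]; exact hP γ

lemma Rep.X_mem_orbI (r₁ : Rep τ σ ι₁) (r₀ : Rep τ σ ι₀) (h : ι₀ → ℂ) (j : ι₁) :
    X (Sum.inl j) ∈ (r₁.sum r₀).orbI (Sum.elim 0 h) := by
  rw [Rep.mem_orbI]
  intro γ
  simp [Rep.pt_sum, Rep.pt_zero]

lemma Rep.ClosedOrb.sum (r₁ : Rep τ σ ι₁) {r₀ : Rep τ σ ι₀} {h : ι₀ → ℂ} (hh : r₀.ClosedOrb h) :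
    (r₁.sum r₀).ClosedOrb (Sum.elim 0 h) := by
  intro w hw
  obtain ⟨m, z, rfl⟩ := exists_elim w
  obtain ⟨γ, rfl⟩ := hh z fun P hP => by
    have := hw _ (r₁.rename_mem_orbI r₀ hP)
    rwa [aeval_rename] at this
  refine ⟨γ, ?_⟩
  rw [Rep.pt_sum, Rep.pt_zero]
  congr 1
  funext j
  simpa using hw _ (r₁.X_mem_orbI r₀ h j)

/-- coefficients of an invariant under an element acting diagonally on the extra variables -/
lemma Rep.co_diag (r₁ : Rep τ σ ι₁) (r₀ : Rep τ σ ι₀) {P : MvPolynomial (ι₁ ⊕ ι₀) ℂ}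
    (hP : P ∈ (r₁.sum r₀).inv) (γ : Gr τ σ R) (w : ι₁ → R)
    (hw : r₁.pt (X : ι₁ → MvPolynomial ι₁ R) (mapG (C : R →+* MvPolynomial ι₁ R) γ) =
      fun j => C (w j) * X j) (z : ι₀ → R) (μ : ι₁ →₀ ℕ) :
    aeval z (co μ P) = (∏ j, w j ^ μ j) * aeval (r₀.pt z γ) (co μ P) := by
  have h1 := (r₁.sum r₀).aeval_pt_of_invariant P hP (Sum.elim X fun o => C (z o))
    (mapG (C : R →+* MvPolynomial ι₁ R) γ)
  have h2 := r₀.map_pt (IsScalarTower.toAlgHom ℂ R (MvPolynomial ι₁ R)) z γ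
  have h3 : (fun o => (C (r₀.pt z γ o) : MvPolynomial ι₁ R)) =
    r₀.pt (fun o => C (z o)) (mapG (C : R →+* MvPolynomial ι₁ R) γ) := h2
  rw [Rep.pt_sum, hw, ← h3] at h1
  have h4 : ((sub (diagonal w)).restrictScalars ℂ).comp (sl (r₀.pt z γ)) =
      aeval (Sum.elim (fun j => C (w j) * X j) fun o => C (r₀.pt z γ o)) := by
    ext1 i
    cases i
    · simp [sl, sub_X, diagonal_apply, apply_ite]
    · simp [sl]
  rw [← h4] at h1
  rw [← coeff_sl, ← coeff_sl, ← coeff_sub_diagonal]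
  exact congrArg (coeff μ) h1.symm

end Sum

variable {σ : Type} [Fintype σ] [DecidableEq σ] {e : ℕ} [Nonempty σ] [Fact (2 ≤ e)]
variable {ι : Type} [Fintype ι] [DecidableEq ι]

variable (σ e ι) in
/-- a representation on which the torus acts diagonally -/
structure DRep where
  /-- the representation -/
  r : Rep Bool σ ι
  /-- the weights -/
  ν : ι → σ → ℤ
  diag : ∀ {R : Type} [CommRing R] [Algebra ℂ R] (u : σ → Rˣ) (m : ι → R),
    r.pt m (tor e u) = fun j => ((∏ i, u i ^ ν j i : Rˣ) : R) * m j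

namespace DRep

variable (M : DRep σ e ι)

/-- the sum with the extended representation -/
noncomputable def S : Rep Bool σ (ι ⊕ Option (σ × Mon σ e)) := M.r.sum (rep1 σ e)

/-- its restriction to the diagonal -/
noncomputable def G : Rep Unit σ (ι ⊕ Option (σ × Mon σ e)) := M.S.comp (dgH σ) (fun _ _ => rfl)

lemma gact_G {R : Type} [CommRing R] [Algebra ℂ R] (γ : Gr Unit σ R) :
    M.G.gact γ = M.S.gact (dg (γ ())) := Rep.gact_comp _ _ _ γ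

lemma mem_invG {P : MvPolynomial (ι ⊕ Option (σ × Mon σ e)) ℂ} :
    P ∈ M.G.inv ↔ ∀ g : GL σ ℂ, M.S.gact (dg g) P = P :=
  ⟨fun h g => by have := h fun _ => g; rwa [gact_G] at this, fun h γ => by rw [gact_G, h]⟩

lemma inv_le : M.S.inv ≤ M.G.inv := fun _ h => M.mem_invG.2 fun _ => h _

/-- the weight of a monomial -/
def wt (μ : ι →₀ ℕ) (i : σ) : ℤ := ∑ j, μ j * M.ν j i

lemma prod_wt {R : Type} [CommRing R] (u : σ → Rˣ) (μ : ι →₀ ℕ) :
    ∏ j, ((∏ i, u i ^ M.ν j i : Rˣ) : R) ^ μ j = ((∏ i, u i ^ M.wt μ i : Rˣ) : R) := by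
  simp only [← Units.val_pow_eq_pow_val, ← Units.coe_prod]
  congr 1
  simp only [← Finset.prod_pow]
  simp only [← zpow_natCast, ← _root_.zpow_mul]
  rw [Finset.prod_comm]
  refine Finset.prod_congr rfl fun i _ => ?_
  rw [wt]
  induction (Finset.univ : Finset ι) using Finset.induction_on with
  | empty => simp
  | insert j s hj ih =>
    rw [Finset.prod_insert hj, Finset.sum_insert hj, ih, _root_.zpow_add, mul_comm (M.ν j i)]

lemma diag_X {R : Type} [CommRing R] [Algebra ℂ R] (u : σ → Rˣ) :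
    M.r.pt (X : ι → MvPolynomial ι R) (mapG (C : R →+* MvPolynomial ι R) (tor e u)) =
      fun j => C ((∏ i, u i ^ M.ν j i : Rˣ) : R) * X j := by
  rw [map_tor, M.diag]
  simp only [← map_zpow, ← map_prod]
  rfl

/-- boundedness along torus degenerations -/
def Bd (F : MvPolynomial (ι ⊕ Option (σ × Mon σ e)) ℂ) : Prop :=
  ∀ (O K : Type) [CommRing O] [CommRing K] [Algebra ℂ O] [Algebra ℂ K] [Algebra O K]
    [IsScalarTower ℂ O K] (z : Option (σ × Mon σ e) → K) (y : Option (σ × Mon σ e) → O)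
    (u : σ → Kˣ), IsX z → (rep1 σ e).pt z (tor e u) = (fun o => algebraMap O K (y o)) →
    ∀ μ, IsIntegral O (((∏ i, u i ^ M.wt μ i)⁻¹ : Kˣ) * aeval z (co μ F))

lemma Bd.sub {F P : MvPolynomial (ι ⊕ Option (σ × Mon σ e)) ℂ} (hF : M.Bd F) (hP : P ∈ M.S.inv) :
    M.Bd (F - P) := by
  intro O K _ _ _ _ _ _ z y u hz hy μ
  rw [co_sub, map_sub, mul_sub]
  refine (hF O K z y u hz hy μ).sub ?_
  rw [M.r.co_diag (rep1 σ e) hP (tor e u) (fun j => ((∏ i, u i ^ M.ν j i : Kˣ) : K))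
    (M.diag_X u) z μ, M.prod_wt, Units.inv_mul_cancel_left, hy]
  exact aeval_algebraMap_apply K y (co μ P) ▸ isIntegral_algebraMap

end DRep

variable (σ e ι) in
/-- the ideal of the product of the smooth locus with the extra space -/
noncomputable def IX' : Ideal (MvPolynomial (ι ⊕ Option (σ × Mon σ e)) ℂ) :=
  RingHom.ker (sl (genX σ e))

lemma mem_IX'_iff {F : MvPolynomial (ι ⊕ Option (σ × Mon σ e)) ℂ} :
    F ∈ IX' σ e ι ↔ ∀ μ, co μ F ∈ IX σ e := by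
  rw [IX', RingHom.mem_ker, MvPolynomial.ext_iff]
  simp only [coeff_sl, coeff_zero]
  rfl

lemma IsX.aeval_elim {R : Type} [CommRing R] [Algebra ℂ R] {z : Option (σ × Mon σ e) → R}
    (hz : IsX z) (m : ι → R) {F : MvPolynomial (ι ⊕ Option (σ × Mon σ e)) ℂ}
    (hF : F ∈ IX' σ e ι) : aeval (Sum.elim m z) F = 0 := by
  rw [_root_.Pool.Agent.P.MP_f4e0a3_ag.aeval_elim]
  exact Finset.sum_eq_zero fun μ _ => by rw [hz.aeval_eq_zero (mem_IX'_iff.1 hF μ), zero_mul]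

lemma mem_IX' {F : MvPolynomial (ι ⊕ Option (σ × Mon σ e)) ℂ}
    (h : ∀ (m : ι → ℂ) (z : Option (σ × Mon σ e) → ℂ), IsX z → aeval (Sum.elim m z) F = 0) :
    F ∈ IX' σ e ι := mem_IX'_iff.2 fun μ => mem_IX fun z hz => by
  rw [← coeff_sl, show sl z F = 0 from MvPolynomial.funext fun m => by
    rw [eval_sl, h m z hz, map_zero], coeff_zero]

lemma rename_mem_IX' {P : MvPolynomial (Option (σ × Mon σ e)) ℂ} (hP : P ∈ IX σ e) :
    rename Sum.inr P ∈ IX' σ e ι := mem_IX' fun m z hz => by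
  rw [aeval_rename]; exact hz.aeval_eq_zero hP

lemma DRep.gact_mem_IX' (M : DRep σ e ι) (g : GL σ ℂ)
    {F : MvPolynomial (ι ⊕ Option (σ × Mon σ e)) ℂ} (hF : F ∈ IX' σ e ι) :
    M.S.gact (dg g) F ∈ IX' σ e ι := mem_IX' fun m z hz => by
  rw [Rep.aeval_act, DRep.S, Rep.pt_sum]
  exact (hz.dg g).aeval_elim _ hF

lemma co_mem_sup {J : Ideal (MvPolynomial (ι ⊕ Option (σ × Mon σ e)) ℂ)}
    {I : Ideal (MvPolynomial (Option (σ × Mon σ e)) ℂ)} (h : ∀ F ∈ J, co 0 F ∈ I) {n : ℕ}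
    {F : MvPolynomial (ι ⊕ Option (σ × Mon σ e)) ℂ} (hF : F ∈ IX' σ e ι ⊔ J ^ n) (μ : ι →₀ ℕ) :
    co μ F ∈ IX σ e ⊔ I ^ (n - μ.degree) := by
  obtain ⟨a, ha, b, hb, rfl⟩ := Submodule.mem_sup.1 hF
  rw [co_add]
  exact Submodule.add_mem_sup (mem_IX'_iff.1 ha μ) (co_mem_pow h hb μ)

/-- the local step -/
def StepSt (M : DRep σ e ι) : Prop :=
  ∀ (f : MvPolynomial σ ℂ) (b : σ → σ) (s : ℂ), f.IsHomogeneous (e + 1) → Blocks f b →
    InU (ptX e f s) → ∀ (N : ℕ) (F : MvPolynomial (ι ⊕ Option (σ × Mon σ e)) ℂ), F ∈ M.G.inv →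
    M.Bd F → F ∈ IX' σ e ι ⊔ mI (Sum.elim 0 (ptX e f s)) ^ N →
    ∃ P ∈ M.S.inv, F - P ∈ IX' σ e ι ⊔ mI (Sum.elim 0 (ptX e f s)) ^ (N + 1)

/-- the lifting theorem for bounded covariants -/
def CovSt (M : DRep σ e ι) : Prop :=
  ∀ F ∈ M.G.inv, M.Bd F → ∀ D : ℕ, ∃ P ∈ M.S.inv, ∀ μ : ι →₀ ℕ, μ.degree ≤ D →
    co μ F - co μ P ∈ IX σ e

end Pool.Agent.P.MP_f4e0a3_ag
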