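import Mathlib
import Pool.Agent.P.MP_f4e0a3_ag.Cl.Base

/-!
An assignment lemma with inequalities, and the inequalities given by weighted arcs.
-/

open MvPolynomial Matrix

set_option linter.unusedSectionVars false

namespace Pool.Agent.P.MP_f4e0a3_ag

lemma hall_ineq {S κ : Type} [Fintype S] [Fintype κ] [DecidableEq κ] (ω : S → κ → ℕ) (r : κ → ℤ)
    (h1 : ∀ T : Finset κ,
      ((Finset.univ.filter fun s => ∀ c, ω s c ≠ 0 → c ∈ T).card : ℤ) ≤ ∑ c ∈ T, r c)
    (h2 : ∑ c, r c ≤ Fintype.card S) :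
    ∃ a : S → κ, (∀ s, ω s (a s) ≠ 0) ∧
      ∀ c, r c = (Finset.univ.filter fun s => a s = c).card := by
  classical
  obtain ⟨r, rfl⟩ : ∃ r' : κ → ℕ, r = fun c => (r' c : ℤ) :=
    ⟨fun c => (r c).toNat, funext fun c => (Int.toNat_of_nonneg (by
      simpa using (Int.natCast_nonneg _).trans (h1 {c}))).symm⟩
  beta_reduce at h1 h2 ⊢
  let t : S → Finset (Σ c, Fin (r c)) := fun s => Finset.univ.filter fun y => ω s y.1 ≠ 0
  obtain ⟨f, hf, hft⟩ := (Finset.all_card_le_biUnion_card_iff_exists_injective t).1 (by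
    intro A
    let Nb : Finset κ := Finset.univ.filter fun c => ∃ s ∈ A, ω s c ≠ 0
    have h3 : A.biUnion t = Nb.sigma fun _ => Finset.univ := by
      ext y
      simp [t, Nb]
    rw [h3, Finset.card_sigma]
    simp only [Finset.card_univ, Fintype.card_fin]
    have h4 : (Finset.univ.filter fun s => ∀ c, ω s c ≠ 0 → c ∈ Nb).card ≤ ∑ c ∈ Nb, r c := by
      exact_mod_cast h1 Nb
    refine (Finset.card_le_card fun s hs => ?_).trans h4
    simp only [Nb, Finset.mem_filter, Finset.mem_univ, true_and]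
    exact fun c hc => ⟨s, hs, hc⟩)
  have hbij : Function.Bijective f := (Fintype.bijective_iff_injective_and_card f).2 ⟨hf,
    le_antisymm (Fintype.card_le_of_injective f hf) (by
    rw [Fintype.card_sigma]
    simp only [Fintype.card_fin]
    exact_mod_cast h2)⟩
  refine ⟨fun s => (f s).1, fun s => by simpa [t] using hft s, fun c => ?_⟩
  have h3 : (Finset.univ.filter fun y : (Σ c, Fin (r c)) => y.1 = c) =
      ({c} : Finset κ).sigma fun _ => Finset.univ := by
    ext y
    simp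
  have h4 : (Finset.univ.filter fun y : (Σ c, Fin (r c)) => y.1 = c).card = r c := by
    rw [h3, Finset.card_sigma]
    simp
  rw [← h4, Nat.cast_inj]
  symm
  exact Finset.card_bijective f hbij (by simp)

/-- power series with all coefficients in an ideal -/
def pI {A : Type} [CommRing A] (I : Ideal A) : Ideal (PowerSeries A) where
  carrier := {φ | ∀ j, PowerSeries.coeff j φ ∈ I}
  add_mem' ha hb j := by rw [map_add]; exact add_mem (ha j) (hb j)
  zero_mem' j := by simp
  smul_mem' a φ hφ j := by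
    rw [smul_eq_mul, PowerSeries.coeff_mul]
    exact Ideal.sum_mem _ fun x _ => Ideal.mul_mem_left _ _ (hφ x.2)

lemma pow_le_pI {A : Type} [CommRing A] (I : Ideal A) (n : ℕ) : pI I ^ n ≤ pI (I ^ n) := by
  induction n with
  | zero => intro P _ μ; simp
  | succ n ih =>
    rw [pow_succ, pow_succ]
    refine Ideal.mul_le.2 fun a ha b hb j => ?_
    rw [PowerSeries.coeff_mul]
    exact Ideal.sum_mem _ fun x _ => Ideal.mul_mem_mul (ih ha x.1) (hb x.2)

lemma coeff_weighted {ι : Type} [Fintype ι] [DecidableEq ι] (w : ι → ℕ) (q : MvPolynomial ι ℂ)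
    (α : ι →₀ ℕ) : coeff α (PowerSeries.coeff (∑ m, α m * w m) (aeval (fun m =>
      (PowerSeries.X ^ w m * PowerSeries.C (X m) : PowerSeries (MvPolynomial ι ℂ))) q)) =
      coeff α q := by
  induction q using MvPolynomial.induction_on' with
  | add p q hp hq => simp only [map_add, coeff_add, hp, hq]
  | monomial β a =>
    have h1 : aeval (fun m => (PowerSeries.X ^ w m * PowerSeries.C (X m) :
        PowerSeries (MvPolynomial ι ℂ))) (monomial β a) =
        PowerSeries.C (monomial β a) * PowerSeries.X ^ ∑ m, β m * w m := by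
      rw [aeval_monomial, monomial_eq, Finsupp.prod_fintype _ _ (by simp),
        Finsupp.prod_fintype _ _ (by simp)]
      simp only [mul_pow, Finset.prod_mul_distrib, ← pow_mul, Finset.prod_pow_eq_pow_sum, map_mul,
        map_prod, map_pow, mul_comm (w _)]
      rw [mul_comm (PowerSeries.X ^ _), ← mul_assoc, PowerSeries.algebraMap_apply, algebraMap_eq]
    rw [h1, PowerSeries.coeff_C_mul, PowerSeries.coeff_X_pow]
    by_cases h : β = α
    · simp [h]
    · split_ifs <;> simp [coeff_monomial, h]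

variable {σ : Type} [Fintype σ] [DecidableEq σ] {e : ℕ} [Nonempty σ] [Fact (2 ≤ e)]

/-- a polynomial on tuples, read on gradients -/
noncomputable def qq (q : MvPolynomial (σ × Mon σ e) ℂ) : MvPolynomial (Mon σ (e + 1)) ℂ :=
  aeval (crd e (grad (frm (X : Mon σ (e + 1) → MvPolynomial (Mon σ (e + 1)) ℂ)))) q

lemma aeval_qq {R : Type} [CommRing R] [Algebra ℂ R] (c : Mon σ (e + 1) → R)
    (q : MvPolynomial (σ × Mon σ e) ℂ) : aeval c (qq q) = aeval (crd e (grad (frm c))) q := by
  rw [qq, ← AlgHom.comp_apply, comp_aeval]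
  congr 2
  refine (map_crd_grad ((aeval c : MvPolynomial (Mon σ (e + 1)) ℂ →ₐ[ℂ] R) :
    MvPolynomial (Mon σ (e + 1)) ℂ →+* R) _).trans ?_
  rw [map_frm]
  simp

lemma qq_isHomogeneous {q : MvPolynomial (σ × Mon σ e) ℂ} {N : ℕ} (hq : q.IsHomogeneous N) :
    (qq q).IsHomogeneous N := by
  have := hq.aeval (crd e (grad (frm (X : Mon σ (e + 1) → MvPolynomial (Mon σ (e + 1)) ℂ))))
    (n := 1) (fun p => by
      rw [crd_grad_apply, show p.2.1 + Finsupp.single p.1 1 = (p.2.add p.1).1 from rfl, coeff_frm,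
        ← Nat.cast_succ, ← map_natCast (C : ℂ →+* MvPolynomial (Mon σ (e + 1)) ℂ), mul_comm]
      exact isHomogeneous_C_mul_X _ _)
  rwa [one_mul] at this

lemma exists_weighted_arc {f : MvPolynomial σ ℂ} (hf : f.IsHomogeneous (e + 1)) {s : ℂ}
    (hh : InU (ptX e f s)) {N : ℕ} {G : MvPolynomial (Option (σ × Mon σ e)) ℂ}
    {q : MvPolynomial (σ × Mon σ e) ℂ} (hq : q.IsHomogeneous N)
    (hG : G - aeval (yv (ptX e f s)) q ∈ IX σ e ⊔ mI (ptX e f s) ^ (N + 1))
    (w : Mon σ (e + 1) → ℕ) (hw1 : ∀ m, w m ≠ 0) :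
    ∃ z : Option (σ × Mon σ e) → PowerSeries (MvPolynomial (Mon σ (e + 1)) ℂ), IsX z ∧
      (∀ p : σ × Mon σ e, z (some p) = (algebraMap ℂ _ (coeff (p.2.add p.1).1 f) +
        PowerSeries.X ^ w (p.2.add p.1) * PowerSeries.C (X (p.2.add p.1))) *
          ((p.2.1 p.1 : PowerSeries (MvPolynomial (Mon σ (e + 1)) ℂ)) + 1)) ∧
      ∀ α ∈ (qq q).support, PowerSeries.coeff (∑ m, α m * w m) (aeval z G) ≠ 0 := by
  let A := MvPolynomial (Mon σ (e + 1)) ℂ
  let x : Mon σ (e + 1) → PowerSeries A := fun m => PowerSeries.X ^ w m * PowerSeries.C (X m)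
  let φ : MvPolynomial σ (PowerSeries A) := MvPolynomial.map (algebraMap ℂ _) f + frm x
  have hφ : φ.IsHomogeneous (e + 1) := (hf.map _).add (frm_isHomogeneous _)
  have hc : ∀ p : σ × Mon σ e, crd e (grad φ) p =
      (algebraMap ℂ _ (coeff (p.2.add p.1).1 f) + x (p.2.add p.1)) * (p.2.1 p.1 + 1) := by
    intro p
    rw [crd_grad_apply, coeff_add, coeff_map,
      show p.2.1 + Finsupp.single p.1 1 = (p.2.add p.1).1 from rfl, coeff_frm]
  have hc0 : ∀ p : σ × Mon σ e, crd e (grad f) p = coeff (p.2.add p.1).1 f * (p.2.1 p.1 + 1) :=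
    fun p => crd_grad_apply f p
  let cA : PowerSeries A →ₐ[ℂ] A := { PowerSeries.constantCoeff with commutes' := fun _ => rfl }
  have hcA : ∀ y, cA y = PowerSeries.constantCoeff y := fun _ => rfl
  have h1 : IsUnit (aeval (crd e (grad φ)) (Res σ e)) := by
    rw [PowerSeries.isUnit_iff_constantCoeff, ← hcA, ← AlgHom.comp_apply, comp_aeval,
      show (fun i => cA (crd e (grad φ) i)) = algebraMap ℂ A ∘ crd e (grad f) from
        funext fun p => by
          rw [hc, map_mul, map_add, AlgHom.commutes, Function.comp_apply, hc0]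
          simp [hcA, x, hw1], aeval_algebraMap_apply]
    exact (IsUnit.of_mul_eq_one_right _ hh).map _
  obtain ⟨s', hs'⟩ := h1.exists_left_inv
  have hz : IsX (ptX e φ s') := isX_ptX hφ hs'
  refine ⟨_, hz, hc, fun α hα h0 => ?_⟩
  set z := ptX e φ s'
  set h := ptX e f s
  let π₀ : PowerSeries A →ₐ[ℂ] PowerSeries ℂ := PowerSeries.mapAlgHom (aeval 0)
  have hπ : ∀ y, π₀ y = PowerSeries.map ((aeval 0 : A →ₐ[ℂ] ℂ) : A →+* ℂ) y := fun _ => rfl
  have h2 : (fun o => π₀ (z o)) = algebraMap ℂ _ ∘ h :=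
    InU.ext' (hz.1.map π₀) (hh.map (Algebra.ofId ℂ _)) fun p => by
      show π₀ (crd e (grad φ) p) = algebraMap ℂ _ (crd e (grad f) p)
      rw [hc, hc0, map_mul, map_add, AlgHom.commutes]
      simp [hπ, x, A]
  have hm : (mI h).map (aeval z) ≤ pI (fil ⊥ 1) := by
    rw [Ideal.map_le_iff_le_comap]
    intro P hP j
    have h3 : π₀ (aeval z P) = 0 := by
      rw [← AlgHom.comp_apply, comp_aeval, h2, aeval_algebraMap_apply, show aeval h P = 0 from hP,
        map_zero]
    have h4 := congrArg (PowerSeries.coeff j) h3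
    refine mem_fil_one ?_
    rw [hπ, PowerSeries.coeff_map, map_zero] at h4
    simpa [A, constantCoeff_eq] using h4
  obtain ⟨a, ha, b, hb, hab⟩ := Submodule.mem_sup.1 hG
  have h3 := Ideal.mem_map_of_mem (aeval z) hb
  rw [Ideal.map_pow] at h3
  have h4 := pow_le_fil _ _ (pow_le_pI _ _ (Ideal.pow_right_mono hm _ h3) (∑ m, α m * w m)) α
  rw [show α.degree = N from ((qq_isHomogeneous hq).degree_eq_sum_deg_support hα).symm,
    Nat.add_sub_cancel_left, pow_one, Ideal.mem_bot] at h4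
  have h5 : aeval z G = aeval z b + aeval x (qq q) := by
    have h6 := congrArg (aeval z) hab
    rw [map_add, hz.aeval_eq_zero ha, zero_add, map_sub, ← AlgHom.comp_apply (aeval z) (aeval _),
      comp_aeval] at h6
    rw [h6, aeval_qq, show (fun p => aeval z (yv h p)) = crd e (grad (frm x)) from
      funext fun p => ?_, sub_add_cancel]
    rw [yv, map_sub, aeval_X, aeval_C, crd_grad_apply,
      show p.2.1 + Finsupp.single p.1 1 = (p.2.add p.1).1 from rfl, coeff_frm]
    show crd e (grad φ) p - algebraMap ℂ _ (crd e (grad f) p) = _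
    rw [hc, hc0]
    simp only [map_mul, map_add, map_natCast, map_one]
    ring
  have h6 := congrArg (coeff α) h0
  rw [h5, map_add, coeff_add, h4, zero_add, coeff_weighted, coeff_zero] at h6
  exact mem_support_iff.1 hα h6

lemma arc_ineq {f : MvPolynomial σ ℂ} (hf : f.IsHomogeneous (e + 1)) {s : ℂ}
    (hh : InU (ptX e f s)) {N : ℕ} {G : MvPolynomial (Option (σ × Mon σ e)) ℂ}
    {q : MvPolynomial (σ × Mon σ e) ℂ} (hq : q.IsHomogeneous N)
    (hG : G - aeval (yv (ptX e f s)) q ∈ IX σ e ⊔ mI (ptX e f s) ^ (N + 1)) (lam : σ → ℤ)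
    (hB : ∀ (O K : Type) [CommRing O] [CommRing K] [Algebra ℂ O] [Algebra ℂ K] [Algebra O K]
      [IsScalarTower ℂ O K] (z : Option (σ × Mon σ e) → K) (y : Option (σ × Mon σ e) → O)
      (u : σ → Kˣ), IsX z → (rep1 σ e).pt z (tor e u) = (fun o => algebraMap O K (y o)) →
      IsIntegral O (((∏ i, u i ^ lam i)⁻¹ : Kˣ) * aeval z G))
    (τ : σ → ℤ) (w : Mon σ (e + 1) → ℕ) (hw1 : ∀ m, w m ≠ 0)
    (hτ : ∀ (i : σ) (β : Mon σ e), coeff (β.add i).1 f ≠ 0 → ∑ j, τ j * β.1 j = e * τ i)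
    (hw : ∀ (i : σ) (β : Mon σ e), e * τ i ≤ w (β.add i) + ∑ j, τ j * β.1 j)
    {α : Mon σ (e + 1) →₀ ℕ} (hα : α ∈ (qq q).support) :
    ∑ i, τ i * lam i ≤ (∑ m, α m * w m : ℕ) := by
  obtain ⟨z, hz, h1, h2⟩ := exists_weighted_arc hf hh hq hG w hw1
  let A := MvPolynomial (Mon σ (e + 1)) ℂ
  let k := FractionRing A
  let O := PowerSeries k
  let K := FractionRing O
  let ρ : PowerSeries A →ₐ[ℂ] O := PowerSeries.mapAlgHom (IsScalarTower.toAlgHom ℂ A k)
  let ψ : PowerSeries A →ₐ[ℂ] K := (IsScalarTower.toAlgHom ℂ O K).comp ρ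
  have hψ : ∀ x, ψ x = algebraMap O K (ρ x) := fun _ => rfl
  have hρ' : ∀ x, ρ x = PowerSeries.map (algebraMap A k) x := fun _ => rfl
  have hρ : ρ PowerSeries.X = PowerSeries.X := by rw [hρ', PowerSeries.map_X]
  let ε : Kˣ := Units.mk0 (algebraMap O K PowerSeries.X)
    ((map_ne_zero_iff _ (IsFractionRing.injective O K)).2 PowerSeries.X_ne_zero)
  have hε : ∀ n : ℕ, ((ε ^ (n : ℤ) : Kˣ) : K) = algebraMap O K (PowerSeries.X ^ n) := by
    intro n
    simp [ε]
  have hsum : ∀ (a : σ → ℤ), ∏ i, ε ^ a i = ε ^ ∑ i, a i := by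
    intro a
    induction (Finset.univ : Finset σ) using Finset.induction_on with
    | empty => simp
    | insert j s hj ih => rw [Finset.prod_insert hj, Finset.sum_insert hj, ih, _root_.zpow_add]
  have h3 : ∀ o, ∃ y : O, (rep1 σ e).pt (fun o => ψ (z o)) (tor e fun i => ε ^ τ i) o =
      algebraMap O K y := by
    intro o
    cases o with
    | none => exact ⟨_, by rw [pt_tor_none, hψ]⟩
    | some p =>
      obtain ⟨i, β⟩ := p
      obtain ⟨n, hn⟩ := Int.eq_ofNat_of_zero_le (sub_nonneg.2 (hw i β))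
      have h4 : (ε ^ τ i)⁻¹ ^ e * ∏ j, (ε ^ τ j) ^ β.1 j = ε ^ (∑ j, τ j * β.1 j - e * τ i) := by
        simp only [← zpow_natCast, ← _root_.zpow_mul, hsum, ← _root_.zpow_neg, ← _root_.zpow_add]
        congr 1
        ring
      have h5 : ((ε ^ (∑ j, τ j * β.1 j - e * τ i) : Kˣ) : K) *
          algebraMap ℂ K (coeff (β.add i).1 f) = algebraMap ℂ K (coeff (β.add i).1 f) := by
        by_cases h : coeff (β.add i).1 f = 0
        · simp [h]
        · simp [hτ i β h]
      have h6 : ((ε ^ (∑ j, τ j * β.1 j - e * τ i) : Kˣ) : K) *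
          algebraMap O K (PowerSeries.X ^ w (β.add i)) = algebraMap O K (PowerSeries.X ^ n) := by
        rw [← hε, ← hε, ← Units.val_mul, ← _root_.zpow_add, ← hn]
        congr 2
        ring
      refine ⟨(algebraMap ℂ O (coeff (β.add i).1 f) +
        PowerSeries.X ^ n * ρ (PowerSeries.C (X (β.add i)))) * ((β.1 i : O) + 1), ?_⟩
      rw [pt_tor_some, h4, h1, map_mul, map_add, AlgHom.commutes, map_mul, hψ, map_pow, hρ,
        ← mul_assoc, mul_add, h5, ← mul_assoc, h6, hψ]
      simp only [map_mul, map_add, map_one, ← IsScalarTower.algebraMap_apply]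
      rw [map_natCast ψ, map_natCast (algebraMap O K)]
  choose y hy using h3
  obtain ⟨y₁, h4⟩ := IsIntegrallyClosed.algebraMap_eq_of_integral
    (hB O K _ y _ (hz.map ψ) (funext hy))
  by_contra h5
  obtain ⟨n, hn⟩ := Int.eq_ofNat_of_zero_le ((Int.natCast_nonneg _).trans (not_le.1 h5).le)
  simp only [← _root_.zpow_mul, hsum] at h4
  rw [hn, ← comp_aeval, AlgHom.comp_apply, hψ, eq_comm, Units.inv_mul_eq_iff_eq_mul, hε,
    ← map_mul] at h4
  have h6 := congrArg (PowerSeries.coeff (∑ m, α m * w m)) (IsFractionRing.injective O K h4)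
  rw [PowerSeries.coeff_X_pow_mul', if_neg (by omega)] at h6
  refine h2 α hα (IsFractionRing.injective A k ?_)
  rwa [hρ', PowerSeries.coeff_map, ← map_zero (algebraMap A k)] at h6

end Pool.Agent.P.MP_f4e0a3_ag
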