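import Mathlib
import Pool.Agent.P.MP_f4e0a3_ag.Cl.Base

/-!
The ring of functions on the closure of the gradient image is integrally closed.
-/

open MvPolynomial Matrix

set_option linter.unusedSectionVars false

namespace Pool.Agent.P.MP_f4e0a3_ag

/-- values on a dense open set determine the span of the coefficients -/
lemma coeff_mem_of_eval {ι K : Type} [Fintype ι] [CommRing K] [Algebra ℂ K] (B : Submodule ℂ K)
    (Q : MvPolynomial ι K) (D : MvPolynomial ι ℂ) (hD : D ≠ 0)
    (h : ∀ x : ι → ℂ, eval x D ≠ 0 → eval (fun i => algebraMap ℂ K (x i)) Q ∈ B) (μ : ι →₀ ℕ) :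
    coeff μ Q ∈ B := by
  classical
  rw [← Subspace.forall_mem_dualAnnihilator_apply_eq_zero_iff]
  intro φ hφ
  let Q' : MvPolynomial ι ℂ := ∑ ν ∈ Q.support, monomial ν (φ (coeff ν Q))
  have h1 : ∀ x, eval x Q' = φ (eval (fun i => algebraMap ℂ K (x i)) Q) := by
    intro x
    rw [eval_eq' _ Q, map_sum, map_sum]
    refine Finset.sum_congr rfl fun ν _ => ?_
    rw [eval_monomial, Finsupp.prod_fintype _ _ (by simp)]
    simp only [← map_pow, ← map_prod]
    rw [mul_comm (coeff ν Q), ← Algebra.smul_def, map_smul, smul_eq_mul, mul_comm]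
  have h2 : Q' * D = 0 := MvPolynomial.funext fun x => by
    by_cases hx : eval x D = 0
    · simp [hx]
    · rw [map_mul, h1, (Submodule.mem_dualAnnihilator φ).1 hφ _ (h x hx)]
      simp
  have h3 := congrArg (coeff μ) ((mul_eq_zero.1 h2).resolve_right hD)
  rw [coeff_sum, coeff_zero] at h3
  simp only [coeff_monomial, Finset.sum_ite_eq'] at h3
  split_ifs at h3 with h4
  · exact h3
  · rw [notMem_support_iff.1 h4, map_zero]

variable {σ : Type} [Fintype σ] [DecidableEq σ] {e : ℕ}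
variable {R S : Type} [CommRing R] [CommRing S]

/-- a scalar and a matrix as one point -/
def exm (δ : R) (m : Matrix σ σ R) : Option (σ × σ) → R := fun o => o.elim δ fun p => m p.1 p.2

/-- the matrix part of a point -/
def mat (p : Option (σ × σ) → R) : Matrix σ σ R := Matrix.of fun i j => p (some (i, j))

@[simp] lemma exm_none (δ : R) (m : Matrix σ σ R) : exm δ m none = δ := rfl
@[simp] lemma exm_some (δ : R) (m : Matrix σ σ R) (p) : exm δ m (some p) = m p.1 p.2 := rfl
@[simp] lemma mat_exm (δ : R) (m : Matrix σ σ R) : mat (exm δ m) = m := rfl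

lemma exm_eta (p : Option (σ × σ) → R) : exm (p none) (mat p) = p := by
  funext o; cases o <;> rfl

lemma map_exm (φ : R →+* S) (δ : R) (m : Matrix σ σ R) :
    (fun o => φ (exm δ m o)) = exm (φ δ) (m.map φ) := by
  funext o; cases o <;> rfl

variable (σ) in
/-- the first factor -/
def lfH (R : Type) [CommRing R] : Gr Unit σ R →* Gr Bool σ R where
  toFun γ := pairG (γ ()) 1
  map_one' := by funext b; cases b <;> rfl
  map_mul' _ _ := by rw [pairG_mul, mul_one]; rfl

variable [Nonempty σ] [Fact (2 ≤ e)] [Algebra ℂ R] [Algebra ℂ S]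

variable (σ e) in
/-- the restriction to changes of basis of the tuple -/
noncomputable def repL : Rep Unit σ (Option (σ × Mon σ e)) :=
  (rep1 σ e).comp (lfH σ) (fun ψ γ => by
    funext b
    cases b
    · rfl
    · exact map_one (Matrix.GeneralLinearGroup.map ψ))

lemma pt_repL (z : Option (σ × Mon σ e) → R) (γ : Gr Unit σ R) :
    (repL σ e).pt z γ = (rep1 σ e).pt z (pairG (γ ()) 1) := rfl

lemma aeval_pt_left {P : MvPolynomial (Option (σ × Mon σ e)) ℂ} (hP : P ∈ (repL σ e).inv)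
    (z : Option (σ × Mon σ e) → R) (a : GL σ R) :
    aeval ((rep1 σ e).pt z (pairG a 1)) P = aeval z P :=
  (repL σ e).aeval_pt_of_invariant P hP z fun _ => a

lemma mem_invL {P : MvPolynomial (Option (σ × Mon σ e)) ℂ}
    (h : ∀ (z : Option (σ × Mon σ e) → ℂ) (a : GL σ ℂ),
      aeval ((rep1 σ e).pt z (pairG a 1)) P = aeval z P) : P ∈ (repL σ e).inv := fun γ =>
  MvPolynomial.funext fun z => ((repL σ e).aeval_act γ z P).trans (h z (γ ()))

variable (σ e) in
/-- functions on the smooth locus that come from the space of subspaces -/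
noncomputable def AL : Subalgebra ℂ (OX σ e) := (repL σ e).inv.map (θ σ e)

variable (e) in
/-- the action on the extra space -/
noncomputable def linM (γ : Gr Bool σ R) : (Option (σ × σ) → R) →ₗ[R] (Option (σ × σ) → R) where
  toFun p := exm (chi e (dg (γ true)) * p none) ((γ true)⁻¹.val * mat p)
  map_add' p q := by
    funext o
    cases o
    · simp [mul_add]
    · simp [mat, Matrix.mul_apply, mul_add, Finset.sum_add_distrib]
  map_smul' c p := by
    funext o
    cases o
    · simp [mul_left_comm]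
    · simp [mat, Matrix.mul_apply, Finset.mul_sum, mul_left_comm]

lemma linM_exm (γ : Gr Bool σ R) (δ : R) (m : Matrix σ σ R) :
    linM e γ (exm δ m) = exm (chi e (dg (γ true)) * δ) ((γ true)⁻¹.val * m) := rfl

variable (σ e) in
/-- the extra representation -/
noncomputable def repM : Rep Bool σ (Option (σ × σ)) :=
  Rep.ofLin (fun _ _ _ γ => linM e γ)
    (fun _ _ _ p => by
      rw [← exm_eta p, linM_exm]
      simp)
    (fun _ _ _ γ δ p => by
      rw [← exm_eta p, linM_exm, linM_exm, linM_exm, Pi.mul_apply, dg_mul, chi_mul,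
        _root_.mul_inv_rev, Units.val_mul, mul_assoc, Matrix.mul_assoc])
    (fun {R S} _ _ _ _ φ γ p => by
      rw [← exm_eta p, linM_exm]
      refine (map_exm (φ : R →+* S) _ _).trans ?_
      rw [show (fun i => φ (exm (p none) (mat p) i)) = _ from map_exm (φ : R →+* S) _ _, linM_exm,
        map_mul, RingHom.coe_coe, map_chi, Matrix.map_mul]
      rfl)

lemma pt_repM (γ : Gr Bool σ R) (δ : R) (m : Matrix σ σ R) :
    (repM σ e).pt (exm δ m) γ = exm (chi e (dg (γ true)) * δ) ((γ true)⁻¹.val * m) := by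
  rw [repM, Rep.pt_ofLin, linM_exm]

lemma exists_wt_chi : ∃ ν : σ → ℤ, ∀ {R : Type} [CommRing R] [Algebra ℂ R] (u : σ → Rˣ),
    chi e (dg (diagU u)) = ((∏ i, u i ^ ν i : Rˣ) : R) := by
  have h0 : Res σ e ≠ 0 := fun h => by
    have := res_fermat (σ := σ) (e := e) (R := ℂ)
    rw [h] at this
    simp at this
  obtain ⟨μ, hμ⟩ := ne_zero_iff.1 h0
  refine ⟨fun i => (∑ p, ((if p.1 = i then 1 else 0) + p.2.1 i) * μ p : ℕ), fun {R} _ _ u => ?_⟩
  let T := MvPolynomial (σ × Mon σ e) R
  let t : σ × Mon σ e → R := fun p => u p.1 * ∏ j, (u j : R) ^ p.2.1 j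
  have h1 := res_pt (X : σ × Mon σ e → T) (mapG (C : R →+* T) (dg (diagU u)))
  have h2 : chi e (mapG (C : R →+* T) (dg (diagU u))) = C (chi e (dg (diagU u))) :=
    (map_chi (IsScalarTower.toAlgHom ℂ R T) _).symm
  have h3 : (rep0 σ e).pt (X : σ × Mon σ e → T) (mapG (C : R →+* T) (dg (diagU u))) =
      fun p => C (t p) * X p := by
    rw [pt_rep0, mapG_val, mapG_val, dg_apply, dg_apply, diagU_val, diagonal_map (map_zero _)]
    funext p
    rw [lin0_diagonal]
    simp [t]
  have h4 : ((sub (diagonal t)).restrictScalars ℂ).comp (aeval (X : σ × Mon σ e → T)) =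
      aeval fun p => C (t p) * X p := by
    ext1 p
    simp [sub_X, diagonal_apply, apply_ite]
  have h5 : aeval (X : σ × Mon σ e → T) (Res σ e) = map (algebraMap ℂ R) (Res σ e) := by
    rw [← aeval_map_algebraMap R, aeval_X_left_apply]
  rw [h2, h3, ← h4] at h1
  have h6 := congrArg (coeff μ) h1
  rw [coeff_C_mul, AlgHom.comp_apply, AlgHom.restrictScalars_apply, coeff_sub_diagonal, h5,
    coeff_map] at h6
  rw [← ((Ne.isUnit hμ).map (algebraMap ℂ R)).mul_right_cancel h6]
  simp only [zpow_natCast, Units.coe_prod, Units.val_pow_eq_pow_val, ← Finset.prod_pow_eq_pow_sum,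
    pow_mul, pow_add]
  rw [Finset.prod_comm]
  refine Finset.prod_congr rfl fun p _ => ?_
  rw [Finset.prod_pow]
  simp only [t, Units.val_mul, Units.val_pow_eq_pow_val, Finset.prod_mul_distrib]
  simp

variable (σ e) in
/-- the extra representation with its weights -/
noncomputable def MM : DRep σ e (Option (σ × σ)) where
  r := repM σ e
  ν o := o.elim (exists_wt_chi (σ := σ) (e := e)).choose fun p i => if i = p.1 then -1 else 0
  diag u m := by
    rw [← exm_eta m, pt_repM]
    funext o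
    cases o with
    | none =>
      exact congrArg (· * m none) ((exists_wt_chi (σ := σ) (e := e)).choose_spec u)
    | some p =>
      show (diagonal (fun i => ((u i)⁻¹ : _ˣ).val) * mat m) p.1 p.2 = _
      rw [diagonal_mul]
      simp [apply_ite]

lemma exists_away' (P : MvPolynomial (Option (σ × Mon σ e)) ℂ) :
    ∃ (k : ℕ) (P₀ : MvPolynomial (σ × Mon σ e) ℂ), ∀ {R : Type} [CommRing R] [Algebra ℂ R] (s : R)
      (w : σ × Mon σ e → R), InU (ext s w) → aeval (ext s w) P = s ^ k * aeval w P₀ := by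
  induction P using MvPolynomial.induction_on with
  | C a => exact ⟨0, C a, fun s w _ => by simp⟩
  | add p q hp hq =>
    obtain ⟨k, p₁, hp⟩ := hp
    obtain ⟨k', q₁, hq⟩ := hq
    refine ⟨k + k', p₁ * Res σ e ^ k' + Res σ e ^ k * q₁, fun s w hw => ?_⟩
    have h1 : ∀ j, s ^ j * aeval w (Res σ e) ^ j = 1 := fun j => by
      rw [← mul_pow, inU_ext.1 hw, one_pow]
    rw [map_add, hp s w hw, hq s w hw]
    simp only [map_add, map_mul, map_pow]
    linear_combination -(s ^ k * aeval w p₁) * h1 k' - (s ^ k' * aeval w q₁) * h1 k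
  | mul_X p o hp =>
    obtain ⟨k, p₁, hp⟩ := hp
    cases o with
    | none =>
      refine ⟨k + 1, p₁, fun s w hw => ?_⟩
      rw [map_mul, hp s w hw, aeval_X, ext_none]
      ring
    | some x =>
      refine ⟨k, p₁ * X x, fun s w hw => ?_⟩
      rw [map_mul, hp s w hw, aeval_X, ext_some, map_mul, aeval_X, mul_assoc]

/-- the covariant attached to a function -/
noncomputable def cov (k : ℕ) (P₀ : MvPolynomial (σ × Mon σ e) ℂ) :
    MvPolynomial (Option (σ × σ) ⊕ Option (σ × Mon σ e)) ℂ :=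
  (X (Sum.inr none) * X (Sum.inl none)) ^ k *
    aeval (lin0 (mat fun o => X (Sum.inl o)) (mat fun o => X (Sum.inl o))
      fun p => X (Sum.inr (some p))) P₀

lemma aeval_cov (k : ℕ) (P₀ : MvPolynomial (σ × Mon σ e) ℂ) (δ : R) (m : Matrix σ σ R) (s : R)
    (w : σ × Mon σ e → R) :
    aeval (Sum.elim (exm δ m) (ext s w)) (cov k P₀) = (s * δ) ^ k * aeval (lin0 m m w) P₀ := by
  rw [cov, map_mul, map_pow, map_mul, aeval_X, aeval_X, ← AlgHom.comp_apply, comp_aeval]
  have h := map_lin0 (aeval (Sum.elim (exm δ m) (ext s w)) :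
      MvPolynomial (Option (σ × σ) ⊕ Option (σ × Mon σ e)) ℂ →ₐ[ℂ] R).toRingHom
    (mat fun o => X (Sum.inl o)) (mat fun o => X (Sum.inl o)) fun p => X (Sum.inr (some p))
  have h1 : (mat fun o => X (Sum.inl o)).map (aeval (Sum.elim (exm δ m) (ext s w)) :
      MvPolynomial (Option (σ × σ) ⊕ Option (σ × Mon σ e)) ℂ →ₐ[ℂ] R).toRingHom = m := by
    ext i j
    simp [mat]
  rw [h1] at h
  simp only [AlgHom.toRingHom_eq_coe, RingHom.coe_coe, aeval_X, Sum.elim_inr, ext_some] at h
  rw [h]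
  rfl

lemma cov_mem (k : ℕ) (P₀ : MvPolynomial (σ × Mon σ e) ℂ) : cov k P₀ ∈ (MM σ e).G.inv := by
  refine (MM σ e).mem_invG.2 fun g => MvPolynomial.funext fun v => ?_
  obtain ⟨p, z, rfl⟩ := exists_elim v
  refine ((MM σ e).S.aeval_act (dg g) _ _).trans ?_
  show _ = aeval _ _
  rw [DRep.S, Rep.pt_sum, ← exm_eta p, ← ext_eta z, pt_rep1, show (MM σ e).r = repM σ e from rfl,
    pt_repM, aeval_cov, aeval_cov, lin0_lin0, dg_apply, dg_apply, Units.mul_inv_cancel_left,
    mul_mul_mul_comm, chi_inv_mul, one_mul]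

lemma aeval_cov_GL {Ψ : MvPolynomial (Option (σ × Mon σ e)) ℂ} {k : ℕ}
    {P₀ : MvPolynomial (σ × Mon σ e) ℂ} (h : ∀ (s : R) (w : σ × Mon σ e → R), InU (ext s w) →
      aeval (ext s w) Ψ = s ^ k * aeval w P₀) (δ : R) (g : GL σ R)
    {z : Option (σ × Mon σ e) → R} (hz : InU z) :
    aeval (Sum.elim (exm δ g.val) z) (cov k P₀) =
      (δ * chi e (dg g)) ^ k * aeval ((rep1 σ e).pt z (dg g)) Ψ := by
  have h1 := hz.pt (dg g)
  rw [← ext_eta z, pt_rep1] at h1
  rw [← ext_eta z, aeval_cov, pt_rep1, h _ _ h1, ← mul_assoc, ← mul_pow]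
  congr 2
  linear_combination -(δ * z none) * chi_inv_mul (e := e) (dg g)

lemma cov_bd {Ψ : MvPolynomial (Option (σ × Mon σ e)) ℂ} (hΨ : IsIntegral (AL σ e) (θ σ e Ψ))
    {k : ℕ} {P₀ : MvPolynomial (σ × Mon σ e) ℂ}
    (h : ∀ {R : Type} [CommRing R] [Algebra ℂ R] (s : R) (w : σ × Mon σ e → R), InU (ext s w) →
      aeval (ext s w) Ψ = s ^ k * aeval w P₀) : (MM σ e).Bd (cov k P₀) := by
  intro O K _ _ _ _ _ _ z y u hz hy μ
  let B := integralClosure O K
  let t : Option (σ × σ) → K := fun j => ((∏ i, u⁻¹ i ^ (MM σ e).ν j i : Kˣ) : K)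
  have h1 : (((∏ i, u i ^ (MM σ e).wt μ i)⁻¹ : Kˣ) : K) * aeval z (co μ (cov k P₀)) =
      coeff μ (sub (diagonal t) (sl z (cov k P₀))) := by
    rw [coeff_sub_diagonal, coeff_sl, (MM σ e).prod_wt]
    simp
  rw [h1]
  refine coeff_mem_of_eval ((B.restrictScalars ℂ).toSubmodule) _
    (mat (X : Option (σ × σ) → MvPolynomial _ ℂ)).det (fun h0 => ?_) (fun x hx => ?_) μ
  · have := congrArg (eval (exm 0 (1 : Matrix σ σ ℂ))) h0
    rw [RingHom.map_det, show (eval (exm 0 (1 : Matrix σ σ ℂ))).mapMatrix (mat X) = 1 from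
      Matrix.ext fun i j => eval_X _] at this
    simp at this
  rw [RingHom.map_det, show (eval x).mapMatrix (mat X) = mat x from
    Matrix.ext fun i j => eval_X _] at hx
  let g₀ : GL σ ℂ := Matrix.GeneralLinearGroup.mkOfDetNeZero _ hx
  let g : GL σ K := Matrix.GeneralLinearGroup.map (algebraMap ℂ K) g₀
  let g₁ : GL σ O := Matrix.GeneralLinearGroup.map (algebraMap ℂ O) g₀
  have h2 : diagonal t *ᵥ (fun i => algebraMap ℂ K (x i)) =
      exm (chi e (dg (diagU u)⁻¹) * algebraMap ℂ K (x none)) (diagU u * g).val := by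
    have h3 := (MM σ e).diag u⁻¹ (exm (algebraMap ℂ K (x none)) g.val)
    rw [show (MM σ e).r = repM σ e from rfl, pt_repM, tor_inv, Pi.inv_apply, inv_inv] at h3
    refine Eq.trans ?_ h3.symm
    funext o
    rw [mulVec_diagonal]
    cases o <;> rfl
  have h3 : chi e (dg g) = algebraMap ℂ K (chi e (dg g₀)) := (map_chi (Algebra.ofId ℂ K) _).symm
  rw [eval_sub, h2, eval_sl, aeval_cov_GL h _ _ hz.1, dg_mul, chi_mul, dg_inv,
    show chi e (dg (diagU u))⁻¹ * algebraMap ℂ K (x none) * (chi e (dg g) * chi e (dg (diagU u))) =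
      algebraMap ℂ K (x none) * chi e (dg g) from by
      linear_combination algebraMap ℂ K (x none) * chi e (dg g) * chi_inv_mul (e := e)
        (dg (diagU u)), h3, ← map_mul, ← map_pow, ← Algebra.smul_def, ← dg_mul]
  refine Submodule.smul_mem _ _ ?_
  obtain ⟨χ, hχ⟩ := (hz.dg (diagU u * g)).exists_hom
  have h4 : ∀ a : AL σ e, χ a ∈ B := by
    rintro ⟨_, P, hP, rfl⟩
    have h5 := (rep1 σ e).map_pt (IsScalarTower.toAlgHom ℂ O K) y (dg g₁)
    have h6 : mapG (IsScalarTower.toAlgHom ℂ O K : O →+* K) (dg g₁) = dg g := by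
      funext b
      ext i j
      exact (IsScalarTower.algebraMap_apply ℂ O K _).symm
    have h7 : tor e u * dg g = dg (diagU u * g) * pairG ((diagU u * g)⁻¹ * (tor e u false * g)) 1 := by
      funext b
      cases b
      · exact (mul_inv_cancel_left _ _).symm
      · exact (mul_one _).symm
    rw [h6, show (fun i => IsScalarTower.toAlgHom ℂ O K (y i)) = _ from hy.symm, ← Rep.pt_mul, h7,
      Rep.pt_mul] at h5
    show χ (θ σ e P) ∈ B
    rw [map_θ, hχ, ← aeval_pt_left hP _ ((diagU u * g)⁻¹ * (tor e u false * g)), ← h5]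
    rw [← comp_aeval]
    exact isIntegral_algebraMap
  have h5 : IsIntegral B (χ (θ σ e Ψ)) :=
    hΨ.map_of_comp_eq (((χ.comp (AL σ e).val : _ →ₐ[ℂ] K) : _ →+* K).codRestrict B h4)
      (χ : OX σ e →+* K) rfl
  rw [map_θ, hχ] at h5
  exact isIntegral_trans (R := O) _ h5

theorem mem_AL (hcov : CovSt (MM σ e)) {ψ : OX σ e} (hψ : IsIntegral (AL σ e) ψ) :
    ψ ∈ AL σ e := by
  obtain ⟨Ψ, rfl⟩ := θ_surjective ψ
  obtain ⟨k, P₀, h⟩ := exists_away' Ψ
  obtain ⟨P, hP, h1⟩ := hcov _ (cov_mem k P₀) (cov_bd hψ h) ((sp (cov k P₀)).sup Finsupp.degree)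
  have h2 := aeval_cov_GL h 1 1 (isX_genX (σ := σ) (e := e)).1
  rw [dg_one, chi_one, Rep.pt_one, one_mul, one_pow, one_mul, aeval_elim] at h2
  show aeval (genX σ e) Ψ ∈ _
  rw [← h2]
  refine sum_mem fun μ hμ => mul_mem ⟨co μ P, mem_invL fun z a => ?_, ?_⟩
    (prod_mem fun j _ => pow_mem ?_ _)
  · rw [(repM σ e).co_diag (rep1 σ e) hP (pairG a 1) (fun _ => 1) ?_ z μ]
    · simp
    · rw [← exm_eta X, pt_repM, show mapG C (pairG a 1) true = 1 from
        map_one (Matrix.GeneralLinearGroup.map C)]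
      simp
  · have h3 : θ σ e _ = 0 := h1 μ (Finset.le_sup (f := Finsupp.degree) hμ)
    rw [map_sub, sub_eq_zero] at h3
    exact h3.symm
  · cases j with
    | none => exact one_mem _
    | some p =>
      rw [exm_some, Units.val_one, Matrix.one_apply]
      split_ifs
      · exact one_mem _
      · exact zero_mem _

theorem isIntegrallyClosed_AL (hcov : CovSt (MM σ e)) : IsIntegrallyClosed (AL σ e) :=
  have : IsIntegrallyClosedIn (AL σ e) (OX σ e) :=
    Subring.isIntegrallyClosedIn_iff.2 fun _ h => mem_AL hcov h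
  IsIntegrallyClosed.of_isIntegrallyClosed_of_isIntegrallyClosedIn (AL σ e) (OX σ e)

end Pool.Agent.P.MP_f4e0a3_ag
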