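import Mathlib

namespace Pool.Agent.P.MP_f4e0a3_ag

/-- the quotient by `I` is an integrally closed domain -/
def IsNormalQuot {A : Type} [CommRing A] (I : Ideal A) : Prop :=
  IsDomain (A ⧸ I) ∧ IsIntegrallyClosed (A ⧸ I)

/-- `SA` is a finitely generated subalgebra, its elements lying in `J` form an ideal, and the
quotient by this ideal is an integrally closed domain -/
def NormalModulo {R : Type} [CommRing R] [Algebra ℂ R] (SA J : Set R) : Prop :=
  ∃ (A : Subalgebra ℂ R) (I : Ideal A), (A : Set R) = SA ∧ (∀ φ : A, φ ∈ I ↔ (φ : R) ∈ J) ∧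
    Algebra.FiniteType ℂ A ∧ IsNormalQuot I

end Pool.Agent.P.MP_f4e0a3_ag
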