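import Mathlib
import Pool.Agent.P.MP_f4e0a3_ag.Cl.Base

/-!
From the local step to the lifting theorem for bounded covariants.
-/

open MvPolynomial Matrix

set_option linter.unusedSectionVars false

namespace Pool.Agent.P.MP_f4e0a3_ag

lemma krull_sub {A E : Type} [CommRing A] [IsNoetherianRing A] [AddCommGroup E] [Module A E]
    (V N : Submodule A E) (hV : V.FG) (m : Ideal A) (x : E) (h : ∀ k, x ∈ N ⊔ m ^ k • V) :
    ∃ r ∈ m, x - r • x ∈ N := by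
  have h0 : ∀ k, N.mkQ x ∈ m ^ k • V.map N.mkQ := fun k => by
    obtain ⟨a, ha, b, hb, rfl⟩ := Submodule.mem_sup.1 (h k)
    rw [map_add, show N.mkQ a = 0 from (Submodule.Quotient.mk_eq_zero N).2 ha, zero_add,
      ← Submodule.map_smul'']
    exact Submodule.mem_map_of_mem hb
  have h1 : N.mkQ x ∈ V.map N.mkQ := Submodule.smul_le_right (h0 0)
  have : Module.Finite A (V.map N.mkQ) := Module.Finite.iff_fg.2 (hV.map _)
  obtain ⟨r, hr⟩ := (m.mem_iInf_smul_pow_eq_bot_iff (⟨_, h1⟩ : V.map N.mkQ)).1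
    (Submodule.mem_iInf _ |>.2 fun k => (Submodule.mem_smul_top_iff _ _ _).2 (h0 k))
  refine ⟨r, r.2, (Submodule.Quotient.eq N).1 ?_⟩
  exact (congrArg Subtype.val hr).symm

lemma lift_of_local {A O : Type} [CommRing A] [CommRing O] [Algebra ℂ A] [Algebra ℂ O]
    [Algebra.FiniteType ℂ A] (ρ : A →ₐ[ℂ] O) (J : Ideal O) (BG BS : Subalgebra ℂ O) (hle : BS ≤ BG)
    (hρ : ∀ a, ρ a ∈ BS) (hfg : BG.FG)
    (hint : ∀ G ∈ BG, ∃ a y, ρ a - y ∈ J ∧ ∃ n : ℕ, (G - y) ^ n ∈ J) (F : O)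
    (h : ∀ m : Ideal A, m.IsMaximal → ∀ k : ℕ, ∃ P ∈ BS, ∃ (n : ℕ) (a : Fin n → O) (q : Fin n → A),
      (∀ i, a i ∈ BG) ∧ (∀ i, q i ∈ m ^ k) ∧ F - P - ∑ i, a i * ρ (q i) ∈ J) :
    ∃ P ∈ BS, F - P ∈ J := by
  let π := Ideal.Quotient.mkₐ ℂ J
  let _ : Algebra A (O ⧸ J) := (π.comp ρ).toRingHom.toAlgebra
  have : IsScalarTower ℂ A (O ⧸ J) := IsScalarTower.of_algHom (π.comp ρ)
  have hφ : ∀ a : A, algebraMap A (O ⧸ J) a = π (ρ a) := fun _ => rfl
  have : IsNoetherianRing A := Algebra.FiniteType.isNoetherianRing ℂ A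
  let T : ∀ B : Subalgebra ℂ O, BS ≤ B → Subalgebra A (O ⧸ J) := fun B hB =>
    { (B.map π).toSubsemiring with algebraMap_mem' := fun a => ⟨_, hB (hρ a), rfl⟩ }
  have hV : (T BG hle).toSubmodule.FG := by
    obtain ⟨s, hs⟩ := hfg.map π
    have h1 : ∀ x ∈ s, x ∈ BG.map π := fun x hx => hs ▸ Algebra.subset_adjoin hx
    have h2 : T BG hle = Algebra.adjoin A (s : Set (O ⧸ J)) := by
      refine le_antisymm (fun x hx => ?_) (Algebra.adjoin_le h1)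
      have h3 : x ∈ Algebra.adjoin ℂ (s : Set (O ⧸ J)) := by rw [hs]; exact hx
      have h4 : Algebra.adjoin ℂ (s : Set (O ⧸ J)) ≤
          (Algebra.adjoin A (s : Set (O ⧸ J))).restrictScalars ℂ :=
        Algebra.adjoin_le fun y hy => (Subalgebra.mem_restrictScalars ℂ).2 (Algebra.subset_adjoin hy)
      exact (Subalgebra.mem_restrictScalars ℂ).1 (h4 h3)
    rw [h2]
    refine fg_adjoin_of_finite s.finite_toSet fun x hx => ?_
    obtain ⟨G, hG, rfl⟩ := h1 x hx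
    obtain ⟨a, y, h3, n, hn⟩ := hint G hG
    have h4 : IsIntegral A (π (G - y)) := IsIntegral.of_pow n.succ_pos (by
      rw [pow_succ, ← map_pow, show π _ = 0 from Ideal.Quotient.eq_zero_iff_mem.2 hn, zero_mul]
      exact isIntegral_zero)
    have h6 := h4.add (isIntegral_algebraMap (x := a))
    rwa [hφ, show π (ρ a) = π y from Ideal.Quotient.eq.2 h3, ← map_add, sub_add_cancel] at h6
  let c : Ideal A := (T BS le_rfl).toSubmodule.comap (LinearMap.toSpanSingleton A _ (π F))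
  have hc : c = ⊤ := by
    by_contra hc
    obtain ⟨m, hm, hcm⟩ := Ideal.exists_le_maximal c hc
    obtain ⟨r, hr, h1⟩ := krull_sub _ (T BS le_rfl).toSubmodule hV m (π F) fun k => by
      obtain ⟨P, hP, n, a, q, ha, hq, h3⟩ := h m hm k
      have h4 : π (F - P) = π _ := Ideal.Quotient.eq.2 h3
      rw [map_sub, sub_eq_iff_eq_add'] at h4
      rw [h4, map_sum]
      refine Submodule.add_mem_sup ⟨P, hP, rfl⟩ (Submodule.sum_mem _ fun i _ => ?_)
      rw [mul_comm, map_mul, ← hφ, ← Algebra.smul_def]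
      exact Submodule.smul_mem_smul (hq i) ⟨_, ha i, rfl⟩
    have h2 : 1 - r ∈ c := by
      show (1 - r) • π F ∈ (T BS le_rfl).toSubmodule
      rwa [sub_smul, one_smul]
    have h3 := m.add_mem (hcm h2) hr
    rw [sub_add_cancel] at h3
    exact hm.ne_top ((Ideal.eq_top_iff_one _).2 h3)
  obtain ⟨P, hP, h1⟩ : (1 : A) • π F ∈ (T BS le_rfl).toSubmodule :=
    (hc ▸ Submodule.mem_top : (1 : A) ∈ c)
  rw [one_smul] at h1
  exact ⟨P, hP, Ideal.Quotient.eq.1 h1.symm⟩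

lemma Rep.krull_unif {τ σ ι : Type} [Fintype σ] [DecidableEq σ] [Fintype ι] [DecidableEq ι]
    [Fintype τ] (r : Rep τ σ ι) (J : Ideal (MvPolynomial ι ℂ))
    (hJ : ∀ γ : Gr τ σ ℂ, ∀ P ∈ J, r.gact γ P ∈ J) (f : ι → ℂ)
    (hf : ∀ w : ι → ℂ, (∀ P ∈ J, aeval w P = 0) → ∃ γ, w = r.pt f γ) :
    ∃ N, ∀ F ∈ r.inv, F ∈ J ⊔ mI f ^ N → F ∈ J := by
  let π := Ideal.Quotient.mkₐ ℂ J
  obtain ⟨s, hs⟩ := r.inv_fg.map π
  have h1 : (r.inv.map π).toSubmodule.FG := by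
    rw [← hs]
    refine fg_adjoin_of_finite s.finite_toSet fun x hx => ?_
    obtain ⟨F, hF, rfl⟩ : x ∈ r.inv.map π := hs ▸ Algebra.subset_adjoin hx
    obtain ⟨n, hn⟩ := mem_radical_of_forall_point J (F - C (aeval f F)) fun ψ hψ => by
      obtain ⟨γ, hγ⟩ := hf (fun i => ψ (X i)) fun P hP => by
        rw [← hψ P hP]
        exact DFunLike.congr_fun (aeval_unique ψ).symm P
      rw [aeval_unique ψ, show (ψ ∘ X) = _ from hγ, map_sub, ← r.aeval_act, hF γ]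
      simp
    have h2 : IsIntegral ℂ (π (F - C (aeval f F))) := IsIntegral.of_pow n.succ_pos (by
      rw [pow_succ, ← map_pow, show π _ = 0 from Ideal.Quotient.eq_zero_iff_mem.2 hn, zero_mul]
      exact isIntegral_zero)
    have h3 := h2.add (isIntegral_algebraMap (x := aeval f F))
    rwa [← π.commutes, ← map_add, algebraMap_eq, sub_add_cancel] at h3
  have := isArtinian_of_fg_of_artinian _ h1
  let U : ℕ →o (Submodule ℂ (r.inv.map π).toSubmodule)ᵒᵈ :=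
    ⟨fun N => (((J ⊔ mI f ^ N).map π).restrictScalars ℂ).comap (Submodule.subtype _),
      fun N N' h => Submodule.comap_mono (Submodule.restrictScalars_mono ℂ (Ideal.map_mono
        (sup_le_sup_left (Ideal.pow_le_pow_right h) _)))⟩
  obtain ⟨N₀, hN⟩ := IsArtinian.monotone_stabilizes U
  refine ⟨N₀, fun F hF h => r.krull J hJ f hf F hF fun N => ?_⟩
  have h2 : (⟨π F, F, hF, rfl⟩ : (r.inv.map π).toSubmodule) ∈ OrderDual.ofDual (U N₀) :=
    Ideal.mem_map_of_mem π h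
  rw [hN _ (le_max_left N₀ N)] at h2
  obtain ⟨G, hG, h3⟩ := (Ideal.mem_map_iff_of_surjective π (Ideal.Quotient.mkₐ_surjective ℂ J)).1 h2
  have h4 := Ideal.add_mem _ ((sup_le_sup_left (Ideal.pow_le_pow_right (le_max_right N₀ N)) J) hG)
    (Ideal.mem_sup_left (Ideal.Quotient.eq.1 h3.symm))
  rwa [add_sub_cancel] at h4

section Sum

variable {τ σ ι₁ ι₀ : Type} [Fintype σ] [DecidableEq σ] [Fintype ι₁] [DecidableEq ι₁]
  [Fintype ι₀] [DecidableEq ι₀]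

variable (ι₁ ι₀) in
/-- the ideal of the zero section -/
noncomputable def JX : Ideal (MvPolynomial (ι₁ ⊕ ι₀) ℂ) :=
  RingHom.ker (aeval (Sum.elim 0 X) : MvPolynomial (ι₁ ⊕ ι₀) ℂ →ₐ[ℂ] MvPolynomial ι₀ ℂ)

lemma mem_JX {F : MvPolynomial (ι₁ ⊕ ι₀) ℂ} : F ∈ JX ι₁ ι₀ ↔ co 0 F = 0 := by
  rw [JX, RingHom.mem_ker, ← aeval_co_zero, aeval_X_left_apply]

lemma co_zero_rename (P : MvPolynomial ι₀ ℂ) : co (0 : ι₁ →₀ ℕ) (rename Sum.inr P) = P := by
  rw [co, sl_rename, aeval_X_left_apply, coeff_zero_C]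

lemma Rep.co_zero_gact (r₁ : Rep τ σ ι₁) (r₀ : Rep τ σ ι₀) (γ : Gr τ σ ℂ)
    (F : MvPolynomial (ι₁ ⊕ ι₀) ℂ) : co 0 ((r₁.sum r₀).gact γ F) = r₀.gact γ (co 0 F) := by
  apply MvPolynomial.funext
  intro z
  have h1 := aeval_co_zero z ((r₁.sum r₀).gact γ F)
  rw [Rep.aeval_act, Rep.pt_sum, Rep.pt_zero, ← aeval_co_zero, ← Rep.aeval_act] at h1
  exact h1

end Sum

variable {σ : Type} [Fintype σ] [DecidableEq σ] {e : ℕ} [Nonempty σ] [Fact (2 ≤ e)]
variable {ι : Type} [Fintype ι] [DecidableEq ι]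

variable (σ e ι) in
/-- the ideal of a thickening of the smooth locus -/
noncomputable def JD (D : ℕ) : Ideal (MvPolynomial (ι ⊕ Option (σ × Mon σ e)) ℂ) :=
  IX' σ e ι ⊔ JX ι (Option (σ × Mon σ e)) ^ (D + 1)

namespace DRep

variable (M : DRep σ e ι)

lemma gact_mem_JD (D : ℕ) (γ : Gr Unit σ ℂ) {F : MvPolynomial (ι ⊕ Option (σ × Mon σ e)) ℂ}
    (hF : F ∈ JD σ e ι D) : M.G.gact γ F ∈ JD σ e ι D := by
  obtain ⟨a, ha, b, hb, rfl⟩ := Submodule.mem_sup.1 hF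
  rw [gact_G, map_add]
  refine Submodule.add_mem_sup (M.gact_mem_IX' _ ha) ?_
  have h1 := Ideal.mem_map_of_mem (M.S.gact (dg (γ ()))) hb
  rw [Ideal.map_pow] at h1
  refine Ideal.pow_right_mono (Ideal.map_le_iff_le_comap.2 fun G hG => ?_) _ h1
  rw [Ideal.mem_comap, mem_JX, S, Rep.co_zero_gact, mem_JX.1 hG, map_zero]

lemma rename_mem_inv {P : MvPolynomial (Option (σ × Mon σ e)) ℂ} (hP : P ∈ (rep1 σ e).inv) :
    rename Sum.inr P ∈ M.S.inv := fun γ => by rw [S, Rep.gact_rename, hP γ]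

lemma approx (hM : StepSt M) {f : MvPolynomial σ ℂ} {b : σ → σ} {s : ℂ}
    (hf : f.IsHomogeneous (e + 1)) (hb : Blocks f b) (hh : InU (ptX e f s))
    {F : MvPolynomial (ι ⊕ Option (σ × Mon σ e)) ℂ} (hF : F ∈ M.G.inv) (hB : M.Bd F) (N : ℕ) :
    ∃ P ∈ M.S.inv, F - P ∈ IX' σ e ι ⊔ mI (Sum.elim 0 (ptX e f s)) ^ N := by
  induction N with
  | zero => exact ⟨0, zero_mem _, by simp⟩
  | succ N ih =>
    obtain ⟨P, hP, h2⟩ := ih
    obtain ⟨P', hP', h3⟩ := hM f b s hf hb hh N (F - P) (sub_mem hF (M.inv_le hP)) (hB.sub M hP) h2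
    exact ⟨P + P', add_mem hP hP', by rwa [← _root_.sub_sub]⟩

lemma approx_max (hM : StepSt M) (D k : ℕ) (m : Ideal (rep1 σ e).inv) (hm : m.IsMaximal)
    {F : MvPolynomial (ι ⊕ Option (σ × Mon σ e)) ℂ} (hF : F ∈ M.G.inv) (hB : M.Bd F) :
    ∃ P ∈ M.S.inv, F - P ∈ JD σ e ι D ⊔ Ideal.span
      ((fun a : (rep1 σ e).inv => rename Sum.inr a.1) '' (m ^ k : Ideal (rep1 σ e).inv)) := by
  set J := JD σ e ι D ⊔ Ideal.span
    ((fun a : (rep1 σ e).inv => rename Sum.inr a.1) '' (m ^ k : Ideal (rep1 σ e).inv)) with hJ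
  have h1 : ∀ w : ι ⊕ Option (σ × Mon σ e) → ℂ, (∀ P ∈ J, aeval w P = 0) →
      ∃ z : Option (σ × Mon σ e) → ℂ, w = Sum.elim (0 : ι → ℂ) z ∧ IsX z ∧ ∀ a ∈ m, aeval z a.1 = 0 := by
    intro w hw
    obtain ⟨p, z, rfl⟩ := exists_elim w
    refine ⟨z, ?_, isX_of_IX fun P hP => ?_, fun a ha => ?_⟩
    · congr 1
      funext j
      have h2 := hw (X (Sum.inl j) ^ (D + 1)) (Ideal.mem_sup_left (Ideal.mem_sup_right
        (Ideal.pow_mem_pow (by simp [JX, RingHom.mem_ker]) _)))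
      simpa using h2
    · have h2 := hw _ (Ideal.mem_sup_left (Ideal.mem_sup_left (rename_mem_IX' hP)))
      rwa [aeval_rename] at h2
    · have h2 := hw _ (Ideal.mem_sup_right (Ideal.subset_span
        ⟨a ^ k, Ideal.pow_mem_pow ha k, rfl⟩))
      rw [aeval_rename, Subalgebra.coe_pow, map_pow] at h2
      exact eq_zero_of_pow_eq_zero h2
  by_cases hT : J = ⊤
  · exact ⟨0, zero_mem _, hT ▸ Submodule.mem_top⟩
  obtain ⟨w, hw⟩ := Rep.exists_pt_of_ne_top _ hT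
  obtain ⟨z, -, ⟨h2, f, hf, h3⟩, h4⟩ := h1 w hw
  obtain ⟨g, b, hb⟩ := exists_blocks hf (smooth_of_inU hf (h3 ▸ h2))
  have h5 : (rep1 σ e).pt z (dg g) = ptX e (sub g.val f) (chi e (dg g)⁻¹ * z none) := by
    conv_lhs => rw [h3]
    rw [pt_ptX_dg hf]
  have h6 : InU (ptX e (sub g.val f) (chi e (dg g)⁻¹ * z none)) := h5 ▸ h2.pt (dg g)
  have h7 : m = RingHom.ker ((aeval z : _ →ₐ[ℂ] ℂ).comp (rep1 σ e).inv.val) :=
    hm.eq_of_le (RingHom.ker_ne_top _) h4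
  refine (M.G.krull_unif J (fun γ P hP => ?_) (Sum.elim 0
    (ptX e (sub g.val f) (chi e (dg g)⁻¹ * z none))) (fun w' hw' => ?_)).elim fun N hN => ?_
  · obtain ⟨x, hx, y, hy, rfl⟩ := Submodule.mem_sup.1 hP
    rw [map_add]
    refine Submodule.add_mem_sup (M.gact_mem_JD D γ hx) ?_
    have h8 := Ideal.mem_map_of_mem (M.G.gact γ) hy
    rw [Ideal.map_span] at h8
    refine Ideal.span_mono ?_ h8
    rintro _ ⟨_, ⟨a, ha, rfl⟩, rfl⟩
    exact ⟨a, ha, (M.inv_le (M.rename_mem_inv a.2) γ).symm⟩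
  · obtain ⟨z', rfl, h8, h9⟩ := h1 w' hw'
    obtain ⟨g', hg'⟩ := hb.fibre (sub_isHomogeneous _ hf) _ h6 h8 fun P hP => by
      have h10 := h9 ⟨P - C (aeval z P), sub_mem hP ((rep1 σ e).inv.algebraMap_mem _)⟩ (by
        rw [h7, RingHom.mem_ker]
        simp)
      rw [map_sub, aeval_C, sub_eq_zero] at h10
      rw [← h5, ← Rep.aeval_act, hP, h10]
      rfl
    refine ⟨fun _ => g', ?_⟩
    show _ = (M.r.sum (rep1 σ e)).pt _ (dg g')
    rw [Rep.pt_sum, Rep.pt_zero, hg']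
  · obtain ⟨P, hP, h8⟩ := M.approx hM (sub_isHomogeneous _ hf) hb h6 hF hB N
    exact ⟨P, hP, hN _ (sub_mem hF (M.inv_le hP))
      (sup_le_sup_right (show IX' σ e ι ≤ J from le_sup_left.trans le_sup_left) _ h8)⟩

end DRep

theorem covSt_of_stepSt (M : DRep σ e ι) (hM : StepSt M) : CovSt M := by
  intro F hF hB D
  have : Algebra.FiniteType ℂ (rep1 σ e).inv := (Subalgebra.fg_iff_finiteType _).1 (rep1 σ e).inv_fg
  refine (lift_of_local ((rename Sum.inr).comp (rep1 σ e).inv.val) (JD σ e ι D)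
    M.G.inv M.S.inv M.inv_le (fun a => M.rename_mem_inv a.2) M.G.inv_fg (fun G hG => ?_) F
    fun m hm k => ?_).imp fun P hP => ⟨hP.1, fun μ hμ => ?_⟩
  · obtain ⟨P, hP, h3⟩ := BB_le_AA (⟨co 0 G, mem_invG.2 fun g => by
      rw [← M.r.co_zero_gact, show (M.r.sum (rep1 σ e)).gact (dg g) G = G from
        M.mem_invG.1 hG g], rfl⟩ : θ σ e (co 0 G) ∈ BB σ e)
    refine ⟨⟨P, hP⟩, rename Sum.inr (co 0 G), Ideal.mem_sup_left ?_, D + 1, Ideal.mem_sup_right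
      (Ideal.pow_mem_pow (mem_JX.2 (by rw [co_sub, co_zero_rename, sub_self])) _)⟩
    show rename Sum.inr P - _ ∈ _
    rw [← map_sub]
    refine rename_mem_IX' ?_
    show θ σ e _ = 0
    rw [map_sub, sub_eq_zero]
    exact h3
  · obtain ⟨P, hP, h1⟩ := M.approx_max hM D k m hm hF hB
    obtain ⟨x, hx, y, hy, h2⟩ := Submodule.mem_sup.1 h1
    obtain ⟨n, a, p, rfl⟩ := Submodule.mem_span_set'.1 hy
    choose q hq1 hq2 using fun i => (p i).2
    have h3 := M.G.sub_sum_reyn_mem Finset.univ ((JD σ e ι D).restrictScalars ℂ)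
      (fun γ P hP => M.gact_mem_JD D γ hP) _ (sub_mem hF (M.inv_le hP)) a (fun i => p i)
      (fun i _ => hq2 i ▸ M.inv_le (M.rename_mem_inv (q i).2)) (by rw [← h2]; simpa using hx)
    refine ⟨P, hP, n, fun i => M.G.reyn (a i), q, fun i => M.G.reyn_mem_inv _, hq1, ?_⟩
    simp only [← hq2] at h3
    exact h3
  · have h2 := co_mem_sup (I := ⊥) (fun G hG => mem_JX.1 hG) hP.2 μ
    rwa [Ideal.bot_pow (by omega), sup_bot_eq, co_sub] at h2

end Pool.Agent.P.MP_f4e0a3_ag
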