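import Mathlib
import Pool.Agent.P.MP_f4e0a3_ag.Cl.Arc

/-!
Leading forms of covariants on the smooth locus.
-/

open MvPolynomial Matrix

set_option linter.unusedSectionVars false

namespace Pool.Agent.P.MP_f4e0a3_ag

variable {σ : Type} [Fintype σ] [DecidableEq σ] {e : ℕ} [Nonempty σ] [Fact (2 ≤ e)]
variable {ι : Type} [Fintype ι] [DecidableEq ι]

lemma arc_dvd {f : MvPolynomial σ ℂ} {s : ℂ} (hh : InU (ptX e f s)) (p : MvPolynomial σ ℂ)
    (r : MvPolynomial σ (PowerSeries ℂ)) (s' : PowerSeries ℂ) (hz : IsX (ptX e (arc f p r) s'))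
    {n : ℕ} {G : MvPolynomial (Option (σ × Mon σ e)) ℂ} (hG : G ∈ IX σ e ⊔ mI (ptX e f s) ^ n) :
    PowerSeries.X ^ n ∣ aeval (ptX e (arc f p r) s') G := by
  have hcc : (fun o => cc (ptX e (arc f p r) s' o)) = ptX e f s := by
    refine InU.ext' (hz.1.map cc) hh fun x => ?_
    refine (congrFun (map_crd_grad (e := e) (cc : PowerSeries ℂ →+* ℂ) (arc f p r)) x).trans ?_
    rw [arc, map_add, map_add, map_cc_map, map_mul, map_mul, map_pow, map_C, RingHom.coe_coe,
      cc_apply]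
    simp [ptX]
  have hm : (mI (ptX e f s)).map (aeval (ptX e (arc f p r) s')) ≤ Ideal.span {PowerSeries.X} := by
    rw [Ideal.map_le_iff_le_comap]
    intro P hP
    rw [Ideal.mem_comap, Ideal.mem_span_singleton, PowerSeries.X_dvd_iff, ← cc_apply,
      ← AlgHom.comp_apply, comp_aeval, hcc]
    exact hP
  obtain ⟨a, ha, b, hb, rfl⟩ := Submodule.mem_sup.1 hG
  have h1 := Ideal.mem_map_of_mem (aeval (ptX e (arc f p r) s')) hb
  rw [Ideal.map_pow] at h1
  have h2 := Ideal.pow_right_mono hm _ h1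
  rw [Ideal.span_singleton_pow, Ideal.mem_span_singleton] at h2
  rwa [map_add, hz.aeval_eq_zero ha, zero_add]

/-- the exponents of degree at most `N` -/
noncomputable def spN (N : ℕ) (F : MvPolynomial (ι ⊕ Option (σ × Mon σ e)) ℂ) : Finset (ι →₀ ℕ) :=
  (sp F).filter fun μ => μ.degree ≤ N

/-- the leading form -/
noncomputable def Lq (T : Finset (ι →₀ ℕ)) (q : (ι →₀ ℕ) → MvPolynomial (σ × Mon σ e) ℂ)
    (p : MvPolynomial σ ℂ) : MvPolynomial ι ℂ :=
  ∑ μ ∈ T, monomial μ (aeval (crd e (grad p)) (q μ))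

lemma coeff_Lq {T : Finset (ι →₀ ℕ)} (q : (ι →₀ ℕ) → MvPolynomial (σ × Mon σ e) ℂ)
    (p : MvPolynomial σ ℂ) {μ : ι →₀ ℕ} (h : μ ∈ T) :
    coeff μ (Lq T q p) = aeval (crd e (grad p)) (q μ) := by
  simp [Lq, coeff_sum, coeff_monomial, h]

section

variable {f : MvPolynomial σ ℂ} {s : ℂ} (hh : InU (ptX e f s)) {N : ℕ}
  {F : MvPolynomial (ι ⊕ Option (σ × Mon σ e)) ℂ} {q : (ι →₀ ℕ) → MvPolynomial (σ × Mon σ e) ℂ}
  (hq : ∀ μ, (q μ).IsHomogeneous (N - μ.degree))
  (hF0 : ∀ μ, co μ F ∈ IX σ e ⊔ mI (ptX e f s) ^ (N - μ.degree))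
  (hF : ∀ μ, co μ F - aeval (yv (ptX e f s)) (q μ) ∈ IX σ e ⊔ mI (ptX e f s) ^ (N - μ.degree + 1))

include hh hq hF0 hF

lemma arc_coeff' (p : MvPolynomial σ ℂ) (r : MvPolynomial σ (PowerSeries ℂ)) (s' : PowerSeries ℂ)
    (hz : IsX (ptX e (arc f p r) s')) (m : ι → PowerSeries ℂ) :
    PowerSeries.coeff N (aeval (Sum.elim ((PowerSeries.X : PowerSeries ℂ) • m)
      (ptX e (arc f p r) s')) F) = eval (fun j => cc (m j)) (Lq (spN N F) q p) := by
  rw [aeval_elim, map_sum, Lq, map_sum, spN, Finset.sum_filter]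
  refine Finset.sum_congr rfl fun μ _ => ?_
  obtain ⟨a, ha⟩ := arc_dvd hh p r s' hz (hF0 μ)
  have h1 := arc_coeff hh (hq μ) (hF μ) p r s' hz
  simp only [Pi.smul_apply, smul_eq_mul, mul_pow, Finset.prod_mul_distrib,
    Finset.prod_pow_eq_pow_sum, ← Finsupp.degree_eq_sum]
  rw [mul_left_comm, PowerSeries.coeff_X_pow_mul']
  split_ifs with h
  · rw [eval_monomial, ← h1, ha, mul_assoc, PowerSeries.coeff_X_pow_mul',
      PowerSeries.coeff_X_pow_mul', if_pos le_rfl, if_pos le_rfl, Nat.sub_self,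
      PowerSeries.coeff_zero_eq_constantCoeff, map_mul, Finsupp.prod_fintype _ _ (by simp)]
    simp [cc_apply]
  · rfl

variable (hf : f.IsHomogeneous (e + 1)) {M : DRep σ e ι} (hG : F ∈ M.G.inv)

include hf hG

lemma lead_eq' (g : GL σ (PowerSeries ℂ)) {p p' : MvPolynomial σ ℂ} (hp : p.IsHomogeneous (e + 1))
    (r : MvPolynomial σ (PowerSeries ℂ)) (h : sub g.val (arc f p 0) = arc f p' r) (m : ι → ℂ) :
    eval (M.r.pt m (mapG (cc : PowerSeries ℂ →+* ℂ) (dg g))) (Lq (spN N F) q p') =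
      eval m (Lq (spN N F) q p) := by
  have h0 : (arc f p 0).IsHomogeneous (e + 1) := by
    rw [arc, mul_zero, add_zero]
    exact (hf.map _).add ((hp.map _).C_mul _)
  obtain ⟨s', hs'⟩ := exists_arc hh h0 (by
    rw [arc, mul_zero, add_zero, map_add, map_cc_map, map_mul, map_C, RingHom.coe_coe, cc_apply]
    simp)
  have h1 := hs'.dg g
  have h2 := M.G.aeval_pt_of_invariant F hG (Sum.elim ((PowerSeries.X : PowerSeries ℂ) •
    fun j => algebraMap ℂ (PowerSeries ℂ) (m j)) (ptX e (arc f p 0) s')) (fun _ => g)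
  rw [show ∀ w, M.G.pt w (fun _ => g) = (M.r.sum (rep1 σ e)).pt w (dg g) from fun _ => rfl,
    Rep.pt_sum, Rep.pt_smul] at h2
  rw [pt_ptX_dg h0, h] at h1 h2
  have h3 := congrArg (PowerSeries.coeff N) h2
  rw [arc_coeff' hh hq hF0 hF p' r _ h1, arc_coeff' hh hq hF0 hF p 0 _ hs', M.r.map_pt cc] at h3
  simpa only [AlgHom.commutes, Algebra.algebraMap_self, RingHom.id_apply] using h3

lemma lead_add' {p j : MvPolynomial σ ℂ} (hp : p.IsHomogeneous (e + 1)) (hj : j ∈ JJ f)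
    {μ : ι →₀ ℕ} (hμ : μ ∈ spN N F) :
    aeval (crd e (grad (p + j))) (q μ) = aeval (crd e (grad p)) (q μ) := by
  obtain ⟨E, rfl⟩ := exists_lieD hj
  let E' : Matrix σ σ (PowerSeries ℂ) := E.map (algebraMap ℂ _)
  let g : GL σ (PowerSeries ℂ) := Matrix.GeneralLinearGroup.mk''
    (1 + (PowerSeries.X : PowerSeries ℂ) • E') (by
      rw [PowerSeries.isUnit_iff_constantCoeff, RingHom.map_det]
      convert isUnit_one
      convert Matrix.det_one (n := σ) (R := ℂ)
      ext i j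
      simp [Matrix.one_apply, apply_ite])
  have hg : mapG (cc : PowerSeries ℂ →+* ℂ) (dg g) = 1 := by
    funext t
    ext i j
    show cc ((1 + (PowerSeries.X : PowerSeries ℂ) • E') i j) = (1 : Matrix σ σ ℂ) i j
    simp [cc_apply, Matrix.one_apply, apply_ite]
  obtain ⟨r, hr⟩ := taylor_sub PowerSeries.X E' (arc f p 0)
  suffices key : Lq (spN N F) q (p + lieD E f) = Lq (spN N F) q p by
    rw [← coeff_Lq q (p + lieD E f) hμ, key, coeff_Lq q p hμ]
  refine MvPolynomial.funext fun m => ?_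
  have h2 := lead_eq' hh hq hF0 hF hf hG g (p' := p + lieD E f) hp
    (r + lieD E' (MvPolynomial.map (algebraMap ℂ _) p)) (hr.trans ?_) m
  · rwa [hg, Rep.pt_one] at h2
  have h1 : lieD E' (arc f p 0) = MvPolynomial.map (algebraMap ℂ _) (lieD E f) +
      C PowerSeries.X * lieD E' (MvPolynomial.map (algebraMap ℂ _) p) := by
    simp only [lieD, arc, mul_zero, add_zero, map_add, pderiv_C_mul, map_sum, map_mul, map_C,
      map_X, pderiv_map, Finset.mul_sum, ← Finset.sum_add_distrib, E', Matrix.map_apply]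
    exact Finset.sum_congr rfl fun l _ => Finset.sum_congr rfl fun k _ => by ring
  rw [h1, arc, arc, map_add]
  ring

lemma lead_tor (t : σ → ℂˣ) (ht : ∀ i, t i ^ (e + 1) = 1) (hg : sub (diagU t).val f = f)
    {p : MvPolynomial σ ℂ} (hp : p.IsHomogeneous (e + 1)) {μ : ι →₀ ℕ} (hμ : μ ∈ spN N F) :
    ((∏ i, t i ^ M.wt μ i : ℂˣ) : ℂ) * aeval (crd e (grad (sub (diagU t).val p))) (q μ) =
      aeval (crd e (grad p)) (q μ) := by
  have h1 : mapG (cc : PowerSeries ℂ →+* ℂ)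
      (dg (Matrix.GeneralLinearGroup.map (algebraMap ℂ (PowerSeries ℂ)) (diagU t))) = tor e t := by
    have h2 : (fun i => (t i)⁻¹ ^ e) = t := funext fun i => by
      rw [inv_pow, inv_eq_iff_mul_eq_one, ← pow_succ, ht]
    funext b
    have h3 : tor e t b = diagU t := by
      rw [tor, h2]; cases b <;> rfl
    rw [h3]
    ext i j
    exact cc.commutes _
  rw [← coeff_Lq q _ hμ, ← coeff_Lq q _ hμ, ← M.prod_wt, ← coeff_sub_diagonal]
  congr 1
  refine MvPolynomial.funext fun m => ?_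
  have h2 := lead_eq' hh hq hF0 hF hf hG (Matrix.GeneralLinearGroup.map (algebraMap ℂ _) (diagU t))
    (p' := sub (diagU t).val p) hp 0 ?_ m
  · rw [h1, M.diag] at h2
    rw [eval_sub, ← h2]
    congr 2
    funext j
    rw [mulVec_diagonal]
  show sub ((diagU t).val.map (algebraMap ℂ (PowerSeries ℂ))) _ = _
  simp only [arc, mul_zero, add_zero, map_add, map_mul, sub_C, ← map_sub_eq, hg]

end

end Pool.Agent.P.MP_f4e0a3_ag
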