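import Mathlib
import Pool.Agent.P.MP_f4e0a3_ag.Cl.Lead

/-!
Lifting of the monomials of a leading form.
-/

open MvPolynomial Matrix

set_option linter.unusedSectionVars false

namespace Pool.Agent.P.MP_f4e0a3_ag

variable {σ : Type} [Fintype σ] [DecidableEq σ] {e : ℕ} [Nonempty σ] [Fact (2 ≤ e)]
variable {κ : Type} [Fintype κ] [DecidableEq κ]

lemma prod_zpow_eq {G S : Type} [CommGroup G] (x : G) (s : Finset S) (a : S → ℤ) :
    ∏ i ∈ s, x ^ a i = x ^ ∑ i ∈ s, a i := by
  classical
  induction s using Finset.induction_on with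
  | empty => simp
  | insert j s hj ih => rw [Finset.prod_insert hj, Finset.sum_insert hj, ih, _root_.zpow_add]

/-- block sums -/
def bs (b : σ → κ) (lam : σ → ℤ) (c : κ) : ℤ := ∑ i with b i = c, lam i

lemma prod_bs {G : Type} [CommGroup G] (b : σ → κ) (lam : σ → ℤ) (t : κ → G) :
    ∏ i, t (b i) ^ lam i = ∏ c, t c ^ bs b lam c := by
  rw [← Finset.prod_fiberwise Finset.univ b]
  refine Finset.prod_congr rfl fun c _ => ?_
  rw [bs, ← prod_zpow_eq]
  exact Finset.prod_congr rfl fun i hi => by rw [(Finset.mem_filter.1 hi).2]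

lemma sum_bs (b : σ → κ) (lam : σ → ℤ) (t : κ → ℤ) :
    ∑ i, t (b i) * lam i = ∑ c, t c * bs b lam c := by
  rw [← Finset.sum_fiberwise Finset.univ b]
  refine Finset.sum_congr rfl fun c _ => ?_
  rw [bs, Finset.mul_sum]
  exact Finset.sum_congr rfl fun i hi => by rw [(Finset.mem_filter.1 hi).2]

lemma sum_md' (b : σ → κ) (β : σ →₀ ℕ) (t : κ → ℤ) :
    ∑ i, t (b i) * β i = ∑ c, t c * md b β c := by
  rw [sum_bs b (fun i => (β i : ℤ))]
  refine Finset.sum_congr rfl fun c _ => ?_
  rw [bs, md_apply, Finset.sum_filter]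
  push_cast
  rfl

section Blocks

variable {f : MvPolynomial σ ℂ} (hf : f.IsHomogeneous (e + 1)) {b : σ → κ} (hb : Blocks f b)
  (s : ℂ)

include hf hb in
lemma Blocks.assign (hh : InU (ptX e f s)) {N : ℕ} {G : MvPolynomial (Option (σ × Mon σ e)) ℂ}
    {q : MvPolynomial (σ × Mon σ e) ℂ} (hq : q.IsHomogeneous N)
    (hG : G - aeval (yv (ptX e f s)) q ∈ IX σ e ⊔ mI (ptX e f s) ^ (N + 1)) (lam : σ → ℤ)
    (hB : ∀ (O K : Type) [CommRing O] [CommRing K] [Algebra ℂ O] [Algebra ℂ K] [Algebra O K]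
      [IsScalarTower ℂ O K] (z : Option (σ × Mon σ e) → K) (y : Option (σ × Mon σ e) → O)
      (u : σ → Kˣ), IsX z → (rep1 σ e).pt z (tor e u) = (fun o => algebraMap O K (y o)) →
      IsIntegral O (((∏ i, u i ^ lam i)⁻¹ : Kˣ) * aeval z G))
    {α : Mon σ (e + 1) →₀ ℕ} (hα : α ∈ (qq q).support)
    (hd : ∀ c, ((e + 1 : ℕ) : ℤ) ∣ (∑ m, α m * md b m.1 c : ℕ) + bs b lam c) :
    ∃ a : (Σ m : Mon σ (e + 1), Fin (α m)) → κ, (∀ x, md b x.1.1 (a x) ≠ 0) ∧
      ∀ c, (∑ m, α m * md b m.1 c : ℕ) + bs b lam c =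
        ((e + 1 : ℕ) : ℤ) * (Finset.univ.filter fun x => a x = c).card := by
  choose r hr using hd
  have hN : ∑ m, α m = N := by
    rw [← Finsupp.degree_eq_sum]
    exact ((qq_isHomogeneous hq).degree_eq_sum_deg_support hα).symm
  have key : ∀ (τ : κ → ℤ) (mx : Mon σ (e + 1) → ℤ), (∀ m c, md b m.1 c ≠ 0 → τ c ≤ mx m) →
      ∑ c, τ c * r c ≤ ∑ m, α m * mx m := by
    intro τ mx hmx
    have h1 : ∀ m : Mon σ (e + 1), ∑ c, τ c * md b m.1 c ≤ (e + 1) * mx m := by
      intro m
      have h2 : ((∑ c, md b m.1 c : ℕ) : ℤ) = (e + 1 : ℕ) := by rw [sum_md, m.2]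
      push_cast at h2
      rw [← h2, Finset.sum_mul]
      refine Finset.sum_le_sum fun c _ => ?_
      by_cases h : md b m.1 c = 0
      · simp [h]
      · rw [mul_comm]
        exact mul_le_mul_of_nonneg_left (hmx m c h) (Int.natCast_nonneg _)
    choose v hv using fun m => Int.eq_ofNat_of_zero_le (sub_nonneg.2 (h1 m))
    have h2 := arc_ineq hf hh hq hG lam hB (fun i => (N + 1) * τ (b i))
      (fun m => (N + 1) * v m + 1) (fun m => Nat.succ_ne_zero _) (fun i β h => by
        have h3 : ((∑ j, β.1 j : ℕ) : ℤ) = e := by rw [β.sum_eq]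
        push_cast at h3
        rw [← h3, Finset.sum_mul]
        refine Finset.sum_congr rfl fun j _ => ?_
        by_cases hj : β.1 j = 0
        · simp [hj]
        · rw [hb.eq_of_coeff h (i := j) (j := i) (by simp [Mon.add_apply, hj])
            (by simp [Mon.add_apply]), mul_comm])
      (fun i β => by
        have h3 : ∑ j, τ (b j) * (β.add i).1 j = ∑ j, τ (b j) * β.1 j + τ (b i) := by
          simp [Mon.add_apply, mul_add, Finset.sum_add_distrib]
        have h4 := hmx (β.add i) (b i) (by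
          rw [show (β.add i).1 = β.1 + Finsupp.single i 1 from rfl, map_add, md_single]
          simp)
        have h5 := hv (β.add i)
        rw [← sum_md', h3] at h5
        simp only [mul_assoc, ← Finset.mul_sum]
        push_cast
        rw [← h5]
        nlinarith [mul_nonneg (by positivity : (0 : ℤ) ≤ (N + 1) * (e + 1)) (sub_nonneg.2 h4)]) hα
    have h3 : ∑ c, τ c * bs b lam c = (e + 1) * ∑ c, τ c * r c -
        ∑ m : Mon σ (e + 1), α m * ∑ c, τ c * md b m.1 c := by
      simp only [Finset.mul_sum]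
      rw [Finset.sum_comm, ← Finset.sum_sub_distrib]
      refine Finset.sum_congr rfl fun c _ => ?_
      have h4 := hr c
      push_cast at h4
      simp only [mul_left_comm _ (τ c), ← Finset.mul_sum]
      linear_combination τ c * h4
    have h4 : ((∑ m, α m * ((N + 1) * v m + 1) : ℕ) : ℤ) = (N + 1) * ((e + 1) * ∑ m, α m * mx m -
        ∑ m : Mon σ (e + 1), α m * ∑ c, τ c * md b m.1 c) + N := by
      conv_rhs => rw [Finset.mul_sum, ← Finset.sum_sub_distrib, Finset.mul_sum]; arg 2; rw [← hN]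
      push_cast
      rw [← Finset.sum_add_distrib]
      exact Finset.sum_congr rfl fun m _ => by rw [← hv]; ring
    simp only [mul_assoc, ← Finset.mul_sum] at h2
    rw [sum_bs, h3, h4] at h2
    by_contra h5
    have h6 : 1 ≤ ∑ c, τ c * r c - ∑ m, α m * mx m := by omega
    nlinarith [mul_le_mul_of_nonneg_left h6 (by positivity : (0 : ℤ) ≤ (N + 1) * (e + 1)),
      (by positivity : (0 : ℤ) ≤ (N + 1) * e)]
  obtain ⟨a, h1, h2⟩ := hall_ineq (S := Σ m : Mon σ (e + 1), Fin (α m)) (fun x => md b x.1.1) r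
    (fun T => by
      have h3 := key (fun c => if c ∈ T then -1 else 0)
        (fun m => if ∀ c, md b m.1 c ≠ 0 → c ∈ T then -1 else 0) (fun m c h => by
          split_ifs with h1 h2 h2
          exacts [le_rfl, by norm_num, absurd (h2 c h) h1, le_rfl])
      rw [Finset.card_filter, Fintype.sum_sigma]
      push_cast
      simp only [ite_mul, mul_ite, neg_mul, one_mul, zero_mul, mul_zero, mul_neg, mul_one,
        Finset.sum_ite_mem, Finset.univ_inter, Finset.sum_neg_distrib] at h3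
      rw [neg_le] at h3
      refine le_of_eq_of_le ?_ h3
      rw [← Finset.sum_neg_distrib]
      refine Finset.sum_congr rfl fun m _ => ?_
      split_ifs <;> simp)
    (by simpa using key (fun _ => 1) (fun _ => 1) fun _ _ _ => le_rfl)
  exact ⟨a, h1, fun c => by rw [hr, h2]⟩

include hf hb in
lemma Blocks.mono_lift' (u : Mon σ (e + 1) → (MvPolynomial σ ℂ →ₗ[ℂ] ℂ))
    (hu1 : ∀ m, ∀ j ∈ JJ f, u m j = 0)
    (hu2 : ∀ m p, u m (weightedHomogeneousComponent (bw b) (md b m.1) p) = u m p)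
    (α : Mon σ (e + 1) →₀ ℕ) (W : κ → ℤ) (a : (Σ m : Mon σ (e + 1), Fin (α m)) → κ)
    (ha1 : ∀ x, md b x.1.1 (a x) ≠ 0) (ha2 : ∀ c, (∑ m, α m * md b m.1 c : ℕ) + W c =
      ((e + 1 : ℕ) : ℤ) * (Finset.univ.filter fun x => a x = c).card) :
    ∃ Q Λ : MvPolynomial (Option (σ × Mon σ e)) ℂ,
      Q ∈ (rep1 σ e).orbI (ptX e f s) ^ α.degree ∧ Q - Λ ∈ mI (ptX e f s) ^ (α.degree + 1) ∧
      (∀ t : κ → ℂˣ, (rep1 σ e).gact (tor e fun i => t (b i)) Λ =
        C (((∏ c, t c ^ W c)⁻¹ : ℂˣ) : ℂ) * Λ) ∧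
      ∀ (f' : MvPolynomial σ ℂ) (s' : ℂ), f'.IsHomogeneous (e + 1) →
        aeval (ptX e f' s') Λ = ∏ m, u m (f' - f) ^ α m := by
  let S := Σ m : Mon σ (e + 1), Fin (α m)
  have hS : Fintype.card S = α.degree := by
    simp [S, Finsupp.degree_eq_sum]
  choose v hv1 hv2 using fun x : S =>
    exists_lift_functional (e := e) b (u x.1) (md b x.1.1) (hu2 x.1) (a x)
  have hP : ∀ x : S, ∃ P ∈ (rep1 σ e).orbI (ptX e f s),
      P - ∑ p, C (v x p) * yv (ptX e f s) p ∈ mI (ptX e f s) ^ 2 := by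
    intro x
    refine exists_conormal hf s (v x) (fun i j => ?_) (fun l k => ?_)
    · have h1 := hv2 x (Pi.single j (pderiv i f)) (fun k => by
        by_cases hk : k = j
        · rw [hk, Pi.single_eq_same]; exact grad_isHomogeneous hf i
        · rw [Pi.single_eq_of_ne hk]; exact isHomogeneous_zero _ _ _)
      rw [hu1, mul_zero, Fintype.sum_prod_type, Finset.sum_eq_single j] at h1
      · simpa [crd] using h1
      · intro k _ hk
        simp [crd, hk]
      · simp
      · refine Submodule.sum_mem _ fun k _ => ?_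
        split_ifs
        · by_cases hk : k = j
          · rw [hk, Pi.single_eq_same]; exact X_mul_mem_JJ f _ _
          · simp [hk]
        · exact Submodule.zero_mem _
    · have h1 := hv2 x (fun j => X k * pderiv l (pderiv j f)) (fun j => by
        have h2 := (isHomogeneous_X ℂ k).mul ((grad_isHomogeneous hf j).pderiv (i := l))
        have h3 : 2 ≤ e := Fact.out
        rwa [show 1 + (e - 1) = e by omega] at h2)
      rw [hu1, mul_zero] at h1
      · exact h1
      · have h2 : (∑ i, if b i = a x then X i * (X k * pderiv l (pderiv i f)) else 0) =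
            X k * ∑ i, if b i = a x then X i * pderiv i (pderiv l f) else 0 := by
          rw [Finset.mul_sum]
          refine Finset.sum_congr rfl fun i _ => ?_
          split_ifs
          · rw [pderiv_comm l i]; ring
          · simp
        rw [h2, hb.euler_pderiv hf]
        split_ifs
        · rw [mul_smul_comm]
          exact nsmul_mem (X_mul_mem_JJ f _ _) _
        · simp
  choose P hP1 hP2 using hP
  refine ⟨∏ x, P x, ∏ x, ∑ p, C (v x p) * yv (ptX e f s) p, ?_, ?_, fun t => ?_,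
    fun f' s' hf' => ?_⟩
  · rw [← hS, ← Finset.card_univ, ← Finset.prod_const]
    exact Ideal.prod_mem_prod fun x _ => hP1 x
  · rw [← hS, ← Finset.card_univ]
    exact prod_sub_prod_mem _ _ _ _ (fun x => (rep1 σ e).orbI_le_mI _ (hP1 x))
      (fun x => Ideal.sum_mem _ fun p _ => Ideal.mul_mem_left _ _ (yv_mem _ p)) hP2
  · rw [map_prod]
    simp only [hb.gact_tor s t _ _ _ (hv1 _)]
    rw [Finset.prod_mul_distrib, ← map_prod, ← Units.coe_prod]
    have h1 : ∏ x : S, ((∏ c, t c ^ md b x.1.1 c) * (t (a x))⁻¹ ^ (e + 1)) =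
        (∏ c, t c ^ W c)⁻¹ := by
      rw [Finset.prod_mul_distrib, Finset.prod_comm,
        ← Finset.prod_fiberwise Finset.univ a (fun x => (t (a x))⁻¹ ^ (e + 1)),
        ← Finset.prod_mul_distrib, ← Finset.prod_inv_distrib]
      refine Finset.prod_congr rfl fun c _ => ?_
      rw [Finset.prod_pow_eq_pow_sum, Finset.prod_congr rfl
        (g := fun _ => (t c)⁻¹ ^ (e + 1)) (fun x hx => by rw [(Finset.mem_filter.1 hx).2]),
        Finset.prod_const, ← pow_mul, inv_pow, ← zpow_natCast, ← zpow_natCast, ← _root_.zpow_neg,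
        ← _root_.zpow_neg, ← _root_.zpow_add, Nat.cast_mul, ← ha2, Fintype.sum_sigma]
      simp
    rw [h1]
  · rw [map_prod, Fintype.prod_sigma]
    refine Finset.prod_congr rfl fun m _ => ?_
    rw [← Fin.prod_const]
    refine Finset.prod_congr rfl fun i _ => ?_
    have h1 := hv2 ⟨m, i⟩ (grad (f' - f)) (grad_isHomogeneous (hf'.sub hf))
    have h2 : (md b m.1 (a ⟨m, i⟩) : ℂ) ≠ 0 := by exact_mod_cast ha1 ⟨m, i⟩
    rw [← hu2, show (∑ j, if b j = a ⟨m, i⟩ then X j * grad (f' - f) j else 0) =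
      ∑ j, if b j = a ⟨m, i⟩ then X j * pderiv j (f' - f) else 0 from rfl, comp_euler, map_smul,
      hu2, smul_eq_mul, inv_mul_cancel_left₀ h2] at h1
    rw [← h1]
    simp [yv, ptX, crd, grad]

end Blocks

end Pool.Agent.P.MP_f4e0a3_ag
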