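import Mathlib
import Pool.Agent.P.MP_f4e0a3_ag.Regular
import Pool.Agent.P.MP_f4e0a3_ag.Cl.Core

/-!
Regular functions on the space of subspaces and the closure of the gradient image.
-/

open MvPolynomial Matrix

set_option linter.unusedSectionVars false

namespace Pool.Agent.P.MP_f4e0a3_ag

variable {n : ℕ}

/-- the algebra of regular functions -/
def RA (k : ℕ) (Y : Set (Submodule ℂ (MvPolynomial (Fin n) ℂ))) : Subalgebra ℂ (Y → ℂ) where
  carrier := {φ | IsRegular k Y φ}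
  mul_mem' := by
    intro φ ψ h1 h3 h₀ hh₀
    obtain ⟨m, P, Q, hP, hQ, h5, h6⟩ := h1 h₀ hh₀
    obtain ⟨m', P', Q', hP', hQ', h7, h8⟩ := h3 h₀ hh₀
    refine ⟨m + m', P * P', Q * Q', hP.mul hP', hQ.mul hQ', by simp [h5, h7], fun h hh h9 => ?_⟩
    rw [map_mul, mul_ne_zero_iff] at h9
    rw [Pi.mul_apply, h6 h hh h9.1, h8 h hh h9.2, map_mul, map_mul, div_mul_div_comm]
  add_mem' := by
    intro φ ψ h1 h3 h₀ hh₀
    obtain ⟨m, P, Q, hP, hQ, h5, h6⟩ := h1 h₀ hh₀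
    obtain ⟨m', P', Q', hP', hQ', h7, h8⟩ := h3 h₀ hh₀
    refine ⟨m + m', P * Q' + Q * P', Q * Q', (hP.mul hQ').add (hQ.mul hP'), hQ.mul hQ',
      by simp [h5, h7], fun h hh h9 => ?_⟩
    rw [map_mul, mul_ne_zero_iff] at h9
    rw [Pi.add_apply, h6 h hh h9.1, h8 h hh h9.2, map_add, map_mul, map_mul, map_mul,
      div_add_div _ _ h9.1 h9.2]
  algebraMap_mem' c := fun h₀ _ => ⟨0, C c, 1, isHomogeneous_C _ _, isHomogeneous_one _ _,
    by simp, fun h hh _ => by simp⟩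

variable {e : ℕ} [Fact (2 ≤ e)] [Nonempty (Fin n)]

lemma evZ_spanL {P : MvPolynomial (Option (Fin n × Mon (Fin n) e)) ℂ}
    (hP : P ∈ (repL (Fin n) e).inv) {h : Fin n → MvPolynomial (Fin n) ℂ}
    (hh : Submodule.span ℂ (Set.range h) ∈ Z n e) : evZ n e P ⟨_, hh⟩ = aeval (zU e h) P := by
  obtain ⟨a, ha⟩ := exists_GL_of_span_eq (of_mem_Z hh).2.1 hh.choose_spec.2.2.2.symm
  show aeval (zU e hh.choose) P = _
  rw [ha, show act2 a.val 1 h = act2 (pairG a 1 false).val (pairG a 1 true).val h from rfl,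
    zU_act2 hh, aeval_pt_left hP]

lemma evZ_memL {P : MvPolynomial (Option (Fin n × Mon (Fin n) e)) ℂ}
    (hP : P ∈ (repL (Fin n) e).inv) : evZ n e P ∈ RA n (Z n e) := by
  intro h₀ hh₀
  obtain ⟨I, hI⟩ := exists_minor (of_mem_Z hh₀).2.1
  obtain ⟨m, P₁, hP₁⟩ := exists_away P
  let y : Fin n × Mon (Fin n) e → (Fin n → (Fin n →₀ ℕ)) := fun p => Function.update I p.1 p.2.1
  have key : ∀ h : Fin n → MvPolynomial (Fin n) ℂ, Submodule.span ℂ (Set.range h) ∈ Z n e →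
      plucker h I ≠ 0 → ∃ a : GL (Fin n) ℂ,
      crd e (act2 a.val 1 h) = fun p => (plucker h I)⁻¹ * plucker h (y p) := by
    intro h _ hD
    let M : Matrix (Fin n) (Fin n) ℂ := Matrix.of fun i j => coeff (I j) (h i)
    have hM : M.det ≠ 0 := hD
    refine ⟨(Matrix.GeneralLinearGroup.mkOfDetNeZero Mᵀ (by rwa [det_transpose]))⁻¹, ?_⟩
    funext p
    have h1 : plucker h (y p) = cramer M (fun i => coeff p.2.1 (h i)) p.1 := by
      rw [cramer_apply, plucker]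
      congr 1
      ext i j
      by_cases hj : j = p.1
      · simp [y, hj]
      · simp [y, hj, M]
    have h2 := det_smul_inv_mulVec_eq_cramer M (fun i => coeff p.2.1 (h i)) (Ne.isUnit hM)
    rw [h1, ← h2, crd, act2_one_right, Pi.smul_apply, smul_eq_mul,
      show plucker h I = M.det from rfl, inv_mul_cancel_left₀ hM]
    simp [coeff_sum, mulVec, dotProduct, ← transpose_nonsing_inv]
  obtain ⟨P', hP', hP''⟩ := exists_homog P₁ y I
    (P₁.totalDegree + (Res (Fin n) e ^ m).totalDegree) (by omega)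
  obtain ⟨Q', hQ', hQ''⟩ := exists_homog (Res (Fin n) e ^ m) y I
    (P₁.totalDegree + (Res (Fin n) e ^ m).totalDegree) (by omega)
  have hne : ∀ (h : Fin n → MvPolynomial (Fin n) ℂ), Submodule.span ℂ (Set.range h) ∈ Z n e →
      aeval (crd e h) (Res (Fin n) e) ≠ 0 := fun h hh => right_ne_zero_of_mul_eq_one (inU_zU hh)
  refine ⟨_, X I * P', X I * Q', (isHomogeneous_X _ _).mul hP', (isHomogeneous_X _ _).mul hQ',
    ?_, fun h hh h1 => ?_⟩
  · obtain ⟨a, ha⟩ := key h₀ hh₀ hI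
    rw [map_mul, eval_X, hQ'' _ hI, ← ha, map_pow]
    exact mul_ne_zero hI (mul_ne_zero (pow_ne_zero _ hI)
      (pow_ne_zero _ (hne _ (by rwa [span_act2_left]))))
  · rw [map_mul, eval_X] at h1
    have hD := left_ne_zero_of_mul h1
    obtain ⟨a, ha⟩ := key h hh hD
    have hh' : Submodule.span ℂ (Set.range (act2 a.val 1 h)) ∈ Z n e := by rwa [span_act2_left]
    have h2 : evZ n e P ⟨_, hh⟩ = evZ n e P ⟨_, hh'⟩ := by simp only [span_act2_left]
    rw [h2, evZ_spanL hP, zU, hP₁ _ (hne _ hh'), map_mul, map_mul, eval_X, hP'' _ hD, hQ'' _ hD,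
      ← ha, mul_div_mul_left _ _ hD, mul_div_mul_left _ _ (pow_ne_zero _ hD)]

lemma exists_evZL {φ : Z n e → ℂ} (hφ : φ ∈ RA n (Z n e)) :
    ∃ P ∈ (repL (Fin n) e).inv, evZ n e P = φ := by
  classical
  let S := MvPolynomial (Option (Fin n × Mon (Fin n) e)) ℂ
  let G : S := X none * rename some (Res (Fin n) e) - 1
  have hG : ∀ χ : S →ₐ[ℂ] ℂ, χ G = 0 ↔ InU fun o => χ (X o) := by
    intro χ
    conv_lhs => rw [aeval_unique χ]
    rw [map_sub, map_mul, aeval_X, aeval_rename, map_one, sub_eq_zero]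
    exact Iff.rfl
  let T : (Fin n → (Fin n →₀ ℕ)) → S := fun I =>
    (Matrix.of fun i j => coeff (I j) (tup (fun p => (X (some p) : S)) i)).det
  have hT : ∀ (χ : S →ₐ[ℂ] ℂ) (P : MvPolynomial _ ℂ),
      χ (aeval T P) = eval (plucker (tup fun p => χ (X (some p)))) P := by
    intro χ P
    have h1 : (fun I => χ (T I)) = plucker (tup fun p => χ (X (some p))) := by
      funext I
      rw [AlgHom.map_det, plucker]
      congr 1
      ext i j
      have := congrArg (coeff (I j)) (map_tup (χ : S →+* ℂ) (fun p => (X (some p) : S)) i)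
      rw [coeff_map] at this
      exact this
    rw [← h1]
    exact DFunLike.congr_fun (comp_aeval T χ) P
  obtain ⟨F, hF⟩ := global_of_local G (fun χ =>
    if h : Submodule.span ℂ (Set.range (tup fun p => χ (X (some p)))) ∈ Z n e then φ ⟨_, h⟩ else 0)
    (by
      intro χ₀ h0
      obtain ⟨m, P, Q, -, -, h1, h2⟩ := hφ _ (mem_Z_of_inU ((hG χ₀).1 h0))
      refine ⟨aeval T P, aeval T Q, by rwa [hT], fun χ h3 h4 => ?_⟩
      rw [hT] at h4
      rw [hT, hT, dif_pos (mem_Z_of_inU ((hG χ).1 h3))]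
      exact h2 _ _ h4)
  have hF' : ∀ (z : Option (Fin n × Mon (Fin n) e) → ℂ) (hz : InU z),
      aeval z F = φ ⟨_, mem_Z_of_inU hz⟩ := by
    intro z hz
    obtain ⟨χ, rfl⟩ : ∃ χ : S →ₐ[ℂ] ℂ, z = fun o => χ (X o) :=
      ⟨aeval z, funext fun o => (aeval_X z o).symm⟩
    have h1 := hF χ ((hG _).2 hz)
    rw [dif_pos (mem_Z_of_inU hz)] at h1
    rw [h1]
    exact DFunLike.congr_fun (aeval_unique χ).symm F
  refine ⟨_, (repL (Fin n) e).reyn_mem_inv F, ?_⟩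
  funext L
  obtain ⟨L, hL⟩ := L
  obtain ⟨h, h1, -, -, rfl⟩ := id hL
  rw [evZ_spanL ((repL (Fin n) e).reyn_mem_inv F)]
  refine (repL (Fin n) e).map_reyn (aeval (zU e h) : S →ₐ[ℂ] ℂ).toLinearMap F _ fun γ => ?_
  rw [AlgHom.toLinearMap_apply, Rep.aeval_act, pt_repL, hF' _ ((inU_zU hL).pt _)]
  congr 2
  rw [← zU_act2 hL, ← span_act2_left (γ ()) h]
  simp only [zU, ext_some]
  rw [tup_crd (act2_isHomogeneous _ _ h1)]
  rfl

lemma evZ_gradMap {P : MvPolynomial (Option (Fin n × Mon (Fin n) e)) ℂ}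
    (hP : P ∈ (repL (Fin n) e).inv) : (∀ L, evZ n e P (gradMap n e L) = 0) ↔ θ (Fin n) e P = 0 := by
  constructor
  · intro h
    refine mem_IX fun z hz => ?_
    obtain ⟨f, hf, rfl⟩ := exists_eq_zU hz
    have h1 := h ⟨_, hf⟩
    rwa [gradMap_span, evZ_spanL hP] at h1
  · rintro h ⟨L, hL⟩
    obtain ⟨f, -, -, rfl⟩ := id hL
    rw [gradMap_span, evZ_spanL hP]
    exact (isX_zU hL).aeval_eq_zero h

theorem normal_closure (n e : ℕ) [Fact (2 ≤ e)] [Nonempty (Fin n)]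
    (hcov : ∀ M : DRep (Fin n) e (Option (Fin n × Fin n)), CovSt M) :
    ∃ (A : Subalgebra ℂ (Z n e → ℂ)) (I : Ideal A),
      (A : Set (Z n e → ℂ)) = {φ | IsRegular n (Z n e) φ} ∧
      (∀ φ : A, φ ∈ I ↔ ∀ L, φ.1 (gradMap n e L) = 0) ∧
      Algebra.FiniteType ℂ A ∧ IsDomain (A ⧸ I) ∧ IsIntegrallyClosed (A ⧸ I) := by
  let π : RA n (Z n e) →ₐ[ℂ] (PX n (e + 1) → ℂ) :=
    AlgHom.pi fun L => (Pi.evalAlgHom ℂ _ (gradMap n e L)).comp (RA n (Z n e)).val
  have hπ : ∀ φ, φ ∈ RingHom.ker π ↔ ∀ L, φ.1 (gradMap n e L) = 0 := fun φ => funext_iff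
  let φ₁ : (repL (Fin n) e).inv →ₐ[ℂ] AL (Fin n) e :=
    ((θ (Fin n) e).comp (repL (Fin n) e).inv.val).codRestrict _ fun P => ⟨P, P.2, rfl⟩
  let φ₀ : (repL (Fin n) e).inv →ₐ[ℂ] RA n (Z n e) :=
    ((evZ n e).comp (repL (Fin n) e).inv.val).codRestrict _ fun P => evZ_memL P.2
  have h0 : Function.Surjective φ₀ := by
    rintro ⟨φ, hφ⟩
    obtain ⟨P, hP, rfl⟩ := exists_evZL hφ
    exact ⟨⟨P, hP⟩, rfl⟩
  let φ₂ := (Ideal.Quotient.mkₐ ℂ (RingHom.ker π)).comp φ₀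
  have h1 : Function.Surjective φ₁ := by
    rintro ⟨_, P, hP, rfl⟩
    exact ⟨⟨P, hP⟩, rfl⟩
  have h2 : Function.Surjective φ₂ := (Ideal.Quotient.mkₐ_surjective ℂ _).comp h0
  have h3 : RingHom.ker φ₁ = RingHom.ker φ₂ := by
    ext P
    rw [RingHom.mem_ker, RingHom.mem_ker, Subtype.ext_iff]
    exact ((Ideal.Quotient.eq_zero_iff_mem.trans (hπ _)).trans (evZ_gradMap P.2)).symm
  let i := (((Ideal.quotientKerAlgEquivOfSurjective h1).symm.trans
    (Ideal.quotientEquivAlgOfEq ℂ h3)).trans (Ideal.quotientKerAlgEquivOfSurjective h2)).toRingEquiv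
  have h4 := isIntegrallyClosed_AL (hcov (MM (Fin n) e))
  have h5 : Algebra.FiniteType ℂ (repL (Fin n) e).inv :=
    (Subalgebra.fg_iff_finiteType _).1 (repL (Fin n) e).inv_fg
  exact ⟨RA n (Z n e), RingHom.ker π, rfl, hπ, h5.of_surjective φ₀ h0,
    i.symm.toMulEquiv.isDomain _, IsIntegrallyClosed.of_equiv i⟩

end Pool.Agent.P.MP_f4e0a3_ag
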