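import Mathlib
import Pool.Agent.P.MP_f4e0a3_ag.Cl.Mono

/-!
The local step for bounded covariants.
-/

open MvPolynomial Matrix

set_option linter.unusedSectionVars false

namespace Pool.Agent.P.MP_f4e0a3_ag

variable {σ : Type} [Fintype σ] [DecidableEq σ] {e : ℕ} [Nonempty σ] [Fact (2 ≤ e)]
variable {ι : Type} [Fintype ι] [DecidableEq ι] {κ : Type} [Fintype κ] [DecidableEq κ]

namespace DRep

variable (M : DRep σ e ι)

/-- the restriction to the block torus -/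
noncomputable def T (b : σ → κ) : Rep κ Unit (ι ⊕ Option (σ × Mon σ e)) :=
  M.S.comp (torH e b) (fun ψ t => by
    show mapG ψ (tor e _) = tor e _
    rw [map_tor]
    congr 1
    funext i
    ext
    simp [mapG])

lemma gact_T (b : σ → κ) (t : Gr κ Unit ℂ) :
    (M.T b).gact t = M.S.gact (tor e fun i => Matrix.GeneralLinearGroup.det (t (b i))) :=
  Rep.gact_comp _ _ _ t

lemma gact_xm (u : σ → ℂˣ) (μ : ι →₀ ℕ) :
    M.S.gact (tor e u) (xm μ) = C ((∏ i, u i ^ M.wt μ i : ℂˣ) : ℂ) * xm μ := by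
  apply MvPolynomial.funext
  intro w
  obtain ⟨m, z, rfl⟩ := exists_elim w
  refine (M.S.aeval_act (tor e u) (Sum.elim m z) (xm μ)).trans ?_
  rw [DRep.S, Rep.pt_sum, M.diag, ← M.prod_wt]
  simp [xm, mul_pow, Finset.prod_mul_distrib]

end DRep

section Blocks

variable {f : MvPolynomial σ ℂ} (hf : f.IsHomogeneous (e + 1)) {b : σ → κ} (hb : Blocks f b)
  {s : ℂ} (hh : InU (ptX e f s)) {M : DRep σ e ι} {N : ℕ}
  {F : MvPolynomial (ι ⊕ Option (σ × Mon σ e)) ℂ} (hG : F ∈ M.G.inv) (hB : M.Bd F)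
  (hF : F ∈ IX' σ e ι ⊔ mI (Sum.elim 0 (ptX e f s)) ^ N)

include hf hb hh hG hB hF

lemma Blocks.co_lift {μ : ι →₀ ℕ} (hμ : μ ∈ spN N F) :
    ∃ Q Λ : MvPolynomial (Option (σ × Mon σ e)) ℂ,
      Q ∈ (rep1 σ e).orbI (ptX e f s) ^ (N - μ.degree) ∧
      Q - Λ ∈ mI (ptX e f s) ^ (N - μ.degree + 1) ∧
      (∀ t : κ → ℂˣ, (rep1 σ e).gact (tor e fun i => t (b i)) Λ =
        C (((∏ i, t (b i) ^ M.wt μ i)⁻¹ : ℂˣ) : ℂ) * Λ) ∧
      co μ F - Λ ∈ IX σ e ⊔ mI (ptX e f s) ^ (N - μ.degree + 1) := by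
  have hF0 : ∀ μ, co μ F ∈ IX σ e ⊔ mI (ptX e f s) ^ (N - μ.degree) :=
    co_mem_sup (fun G hG => by rw [mem_mI, aeval_co_zero]; exact hG) hF
  choose q hq hFq using fun μ => lead hh _ (hF0 μ)
  have hq3 : ∀ α ∈ (qq (q μ)).support, ∀ c,
      ((e + 1 : ℕ) : ℤ) ∣ (∑ m, α m * md b m.1 c : ℕ) + bs b (M.wt μ) c := by
    intro α hα c
    have hζ := Complex.isPrimitiveRoot_exp (e + 1) (Nat.succ_ne_zero e)
    set ζ := Complex.exp (2 * Real.pi * Complex.I / (e + 1 : ℕ))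
    have hζ0 : ζ ≠ 0 := Complex.exp_ne_zero _
    let t : κ → ℂˣ := fun c' => if c' = c then Units.mk0 ζ hζ0 else 1
    have ht : ∀ β : σ →₀ ℕ, ∏ j, (t (b j) : ℂ) ^ β j = ζ ^ md b β c := by
      intro β
      rw [prod_md b (fun c => (t c : ℂ)), Finset.prod_eq_single c]
      · simp [t]
      · intro c' _ hc'
        simp [t, hc']
      · simp
    have ht' : ((∏ i, t (b i) ^ M.wt μ i : ℂˣ) : ℂ) = ζ ^ bs b (M.wt μ) c := by
      rw [prod_bs, Finset.prod_eq_single c]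
      · simp [t]
      · intro c' _ hc'
        simp [t, hc']
      · simp
    have h1 : sub (diagU fun i => t (b i)).val f = f := by
      ext β
      rw [diagU_val, coeff_sub_diagonal, ht]
      by_cases h : coeff β f = 0
      · simp [h]
      · rw [(hζ.pow_eq_one_iff_dvd _).2 (hb.dvd_md hf h c), one_mul]
    have h2 : C (ζ ^ bs b (M.wt μ) c) *
        sub (diagonal fun m : Mon σ (e + 1) => ζ ^ md b m.1 c) (qq (q μ)) = qq (q μ) := by
      apply MvPolynomial.funext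
      intro y
      have h3 := lead_tor hh hq hF0 hFq hf hG (fun i => t (b i)) (fun i => by
        simp only [t]
        split_ifs
        · ext; simpa using hζ.pow_eq_one
        · simp) h1 (frm_isHomogeneous y) hμ
      have h4 : sub (diagU fun i => t (b i)).val (frm y) =
          frm ((diagonal fun m : Mon σ (e + 1) => ζ ^ md b m.1 c) *ᵥ y) := by
        simp only [frm, map_sum, diagU_val, sub_diagonal_monomial, ht, mulVec_diagonal]
      rw [h4, ← aeval_qq, ← aeval_qq, ht'] at h3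
      rw [map_mul, eval_C, eval_sub]
      exact h3
    have h3 := congrArg (coeff α) h2
    rw [coeff_C_mul, coeff_sub_diagonal, ← mul_assoc, mul_eq_right₀ (mem_support_iff.1 hα)] at h3
    simp only [← pow_mul, Finset.prod_pow_eq_pow_sum] at h3
    rw [← zpow_natCast, ← zpow_add₀ hζ0, hζ.zpow_eq_one_iff_dvd, add_comm (bs _ _ _)] at h3
    simpa only [mul_comm] using h3
  obtain ⟨u, hu1, hu2, hu3⟩ := hb.exists_proj hf
  choose! Q Λ h1 h2 h3 h4 using fun α (hα : α ∈ (qq (q μ)).support) =>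
    (hb.assign hf s hh (hq μ) (hFq μ) (M.wt μ)
      (fun O K _ _ _ _ _ _ z y u hz hy => hB O K z y u hz hy μ) hα (hq3 α hα)).elim fun a ha =>
      hb.mono_lift' hf s u hu1 hu2 α _ a ha.1 ha.2
  have hN : ∀ α ∈ (qq (q μ)).support, α.degree = N - μ.degree := fun α hα =>
    ((qq_isHomogeneous (hq μ)).degree_eq_sum_deg_support hα).symm
  refine ⟨∑ α ∈ (qq (q μ)).support, C (coeff α (qq (q μ))) * Q α,
    ∑ α ∈ (qq (q μ)).support, C (coeff α (qq (q μ))) * Λ α,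
    Ideal.sum_mem _ fun α hα => Ideal.mul_mem_left _ _ (hN α hα ▸ h1 α hα), ?_, fun t => ?_, ?_⟩
  · rw [← Finset.sum_sub_distrib]
    refine Ideal.sum_mem _ fun α hα => ?_
    rw [← mul_sub]
    exact Ideal.mul_mem_left _ _ (hN α hα ▸ h2 α hα)
  · rw [map_sum, Finset.mul_sum]
    refine Finset.sum_congr rfl fun α hα => ?_
    rw [map_mul, h3 α hα, ← algebraMap_eq, AlgHom.commutes, prod_bs b, mul_left_comm]
  have hΛ2 : ∑ α ∈ (qq (q μ)).support, C (coeff α (qq (q μ))) * Λ α -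
      aeval (yv (ptX e f s)) (q μ) ∈ IX σ e := by
    apply mem_IX
    rintro z ⟨-, f', hf', hz⟩
    rw [hz, map_sub, sub_eq_zero, ← AlgHom.comp_apply (aeval _) (aeval _), comp_aeval]
    have h5 : (fun p => aeval (ptX e f' (z none)) (yv (ptX e f s) p)) = crd e (grad (f' - f)) := by
      funext p
      simp [yv, ptX, crd, grad]
    have h6 := lead_add' hh hq hF0 hFq hf hG (frm_isHomogeneous fun m => u m (f' - f))
      (hu3 _ (hf'.sub hf)) hμ
    rw [add_sub_cancel, ← aeval_qq] at h6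
    rw [h5, h6, map_sum]
    conv_rhs => rw [(qq (q μ)).as_sum, map_sum]
    refine Finset.sum_congr rfl fun α hα => ?_
    rw [map_mul, aeval_C, h4 α hα _ _ hf', aeval_monomial, Finsupp.prod_fintype _ _ (by simp)]
  convert Ideal.sub_mem _ (hFq μ) (Ideal.mem_sup_left hΛ2) using 1
  ring

lemma Blocks.step' :
    ∃ P ∈ M.S.inv, F - P ∈ IX' σ e ι ⊔ mI (Sum.elim 0 (ptX e f s)) ^ (N + 1) := by
  choose! Q Λ h1 h2 h3 h4 using fun μ (hμ : μ ∈ spN N F) => hb.co_lift hf hh hG hB hF hμ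
  set h : ι ⊕ Option (σ × Mon σ e) → ℂ := Sum.elim 0 (ptX e f s) with hdef
  have hd : ∀ μ ∈ spN N F, μ.degree ≤ N := fun μ hμ => (Finset.mem_filter.1 hμ).2
  have hx : ∀ μ : ι →₀ ℕ, xm μ ∈ mI h ^ μ.degree := xm_mem_pow fun j => by simp [mem_mI, hdef]
  have hr : ∀ μ ∈ spN N F, ∀ P ∈ mI (ptX e f s) ^ (N - μ.degree + 1),
      rename Sum.inr P * xm μ ∈ mI h ^ (N + 1) := fun μ hμ P hP => by
    have := Ideal.mul_mem_mul (rename_mem_pow (fun P hP => rename_mem_mI (ι₁ := ι) hP) hP) (hx μ)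
    rwa [← pow_add, show N - μ.degree + 1 + μ.degree = N + 1 by have := hd μ hμ; omega] at this
  let Q₀ := ∑ μ ∈ spN N F, rename Sum.inr (Q μ) * xm μ
  let Λ₀ := ∑ μ ∈ spN N F, rename Sum.inr (Λ μ) * xm μ
  have hQ₀ : Q₀ ∈ M.S.orbI h ^ N := Ideal.sum_mem _ fun μ hμ => by
    have := Ideal.mul_mem_mul (rename_mem_pow (fun P hP => M.r.rename_mem_orbI _ hP) (h1 μ hμ))
      (xm_mem_pow (M.r.X_mem_orbI (rep1 σ e) (ptX e f s)) μ)
    rwa [← pow_add, Nat.sub_add_cancel (hd μ hμ)] at this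
  have hQΛ : Q₀ - Λ₀ ∈ mI h ^ (N + 1) := by
    rw [← Finset.sum_sub_distrib]
    refine Ideal.sum_mem _ fun μ hμ => ?_
    rw [← sub_mul, ← map_sub]
    exact hr μ hμ _ (h2 μ hμ)
  have hΛ1 : ∀ t : κ → ℂˣ, M.S.gact (tor e fun i => t (b i)) Λ₀ = Λ₀ := by
    intro t
    rw [map_sum]
    refine Finset.sum_congr rfl fun μ hμ => ?_
    rw [map_mul, M.gact_xm, DRep.S, Rep.gact_rename, h3 μ hμ, map_mul, rename_C, mul_mul_mul_comm,
      ← map_mul, Units.inv_mul, map_one, one_mul]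
  have hΛ2 : F - Λ₀ ∈ IX' σ e ι ⊔ mI h ^ (N + 1) := by
    conv => arg 2; arg 1; rw [eq_sum_co F]
    rw [← Finset.sum_filter_add_sum_filter_not (sp F) fun μ => μ.degree ≤ N, add_sub_right_comm,
      ← spN, ← Finset.sum_sub_distrib]
    refine Ideal.add_mem _ (Ideal.sum_mem _ fun μ hμ => ?_) (Ideal.mem_sup_right
      (Ideal.sum_mem _ fun μ hμ => Ideal.mul_mem_left _ _ (Ideal.pow_le_pow_right ?_ (hx μ))))
    · obtain ⟨x, hx, y, hy, hxy⟩ := Submodule.mem_sup.1 (h4 μ hμ)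
      rw [← sub_mul, ← map_sub, ← hxy, map_add, add_mul]
      exact Ideal.add_mem _ (Ideal.mem_sup_left (Ideal.mul_mem_right _ _ (rename_mem_IX' hx)))
        (Ideal.mem_sup_right (hr μ hμ _ hy))
    · exact not_le.1 (Finset.mem_filter.1 hμ).2
  have hp : ∀ γ, M.S.pt h γ = h ↔ (rep1 σ e).pt (ptX e f s) γ = ptX e f s := fun γ => by
    rw [DRep.S, hdef, Rep.pt_sum, Rep.pt_zero]
    exact ⟨fun h => funext fun o => congrFun h (Sum.inr o), fun h => by rw [h]⟩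
  have hm : ∀ γ, (rep1 σ e).pt (ptX e f s) γ = ptX e f s → ∀ P ∈ mI h ^ (N + 1),
      M.S.gact γ P ∈ mI h ^ (N + 1) := fun γ hγ P hP =>
    M.S.gact_mem_pow γ (fun P hP => M.S.gact_mem_mI γ (by rwa [(hp γ).2 hγ])) _ hP
  have ho : ∀ γ, ∀ P ∈ M.S.orbI h ^ N, M.S.gact γ P ∈ M.S.orbI h ^ N := fun γ P hP =>
    M.S.gact_mem_pow γ (fun P hP => M.S.gact_mem_orbI hP γ) _ hP
  let Q₁ := (M.T b).reyn Q₀
  have hQ₁ : Q₁ ∈ M.S.orbI h ^ N :=
    (M.T b).reyn_mem ((M.S.orbI h ^ N).restrictScalars ℂ) Q₀ fun t => by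
      rw [DRep.gact_T]; exact ho _ _ hQ₀
  have hQ₁' : Q₁ - Λ₀ ∈ mI h ^ (N + 1) :=
    (M.T b).reyn_sub_mem ((mI h ^ (N + 1)).restrictScalars ℂ) Q₀ Λ₀ fun t => by
      rw [DRep.gact_T, ← hΛ1 fun c => Matrix.GeneralLinearGroup.det (t c), ← map_sub]
      exact hm _ (hb.pt_tor s fun c => Matrix.GeneralLinearGroup.det (t c)) _ hQΛ
  have hQ₁'' : ∀ t : κ → ℂˣ, M.S.gact (tor e fun i => t (b i)) Q₁ = Q₁ := by
    intro t
    have h5 := (M.T b).gact_reyn (fun c => diagU fun _ => t c) Q₀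
    rw [DRep.gact_T] at h5
    convert h5 using 4
    ext
    simp [diagU_val]
  have hQF : Q₁ - F ∈ IX' σ e ι ⊔ mI h ^ (N + 1) := by
    convert Ideal.sub_mem _ (Ideal.mem_sup_right hQ₁') hΛ2 using 1
    ring
  obtain ⟨Q₂, h5, h6⟩ := M.S.exists_average h Q₁ (by
    refine ((finite_stab hh).image fun g => M.S.gact (dg g) Q₁).subset ?_
    rintro _ ⟨γ, hγ, rfl⟩
    obtain ⟨t, g, hg, rfl⟩ := hb.stab hf s hh γ ((hp γ).1 hγ)
    exact ⟨g, hg, by simp only [Rep.act_mul, hQ₁'']⟩)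
  have h7 := h6 _ 0 fun γ _ => by rw [sub_zero]; exact ho γ _ hQ₁
  rw [sub_zero] at h7
  have h8 := h6 (IX' σ e ι ⊔ mI h ^ (N + 1)) F fun γ hγ => by
    obtain ⟨t, g, hg, rfl⟩ := hb.stab hf s hh γ ((hp γ).1 hγ)
    obtain ⟨x, hx, y, hy, hxy⟩ := Submodule.mem_sup.1 hQF
    rw [Rep.act_mul, hQ₁'', ← M.mem_invG.1 hG g, ← map_sub, ← hxy, map_add]
    exact Ideal.add_mem _ (Ideal.mem_sup_left (M.gact_mem_IX' g hx))
      (Ideal.mem_sup_right (hm _ hg _ hy))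
  obtain ⟨P, hP1, hP2⟩ := M.S.luna
    (Rep.ClosedOrb.sum M.r (closedOrb_of_isX (isX_ptX hf hh))) N Q₂ h7 h5
  refine ⟨P, hP1, ?_⟩
  convert Submodule.neg_mem _ (Ideal.add_mem _ (Ideal.mem_sup_right hP2) h8) using 1
  ring

end Blocks

theorem stepSt (M : DRep σ e ι) : StepSt M :=
  fun _ _ _ hf hb hh _ _ hG hB hF => hb.step' hf hh hG hB hF

end Pool.Agent.P.MP_f4e0a3_ag
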